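import Mathlib

/-!
# Sulanke's conjecture (MP_6dddfa_co): definitions

Rows `1,2,3` are `0,1,2 : Fin 3`, entries `1..3n` are `0..3n-1 : Fin (3n)`.
-/

namespace Sul

open Finset

/-! ## Tableaux -/

/-- Standard Young tableaux of shape `n^3` (3 rows, `n` columns): bijective fillings of the cells
`(r,c)`, `r : Fin 3`, `c : Fin n`, with entries in `Fin (3n)`, increasing along rows and columns. -/
def SYT (n : ℕ) : Type :=
  {e : Fin 3 × Fin n ≃ Fin (3 * n) //
    (∀ r, StrictMono fun c => e (r, c)) ∧ ∀ c, StrictMono fun r => e (r, c)}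

/-- Row index of the row containing the entry `i`. -/
def R {n : ℕ} (T : SYT n) (i : Fin (3 * n)) : Fin 3 := (T.1.symm i).1

/-- Number of consecutive entries `i, i+1` with `E (R_T i) (R_T (i+1))`. -/
noncomputable def stat {n : ℕ} (E : Fin 3 → Fin 3 → Prop) (T : SYT n) : ℕ :=
  Nat.card {p : Fin (3 * n) × Fin (3 * n) // p.1.val + 1 = p.2.val ∧ E (R T p.1) (R T p.2)}

/-! ## Words -/

/-- Number of letters `r` among the first `k` letters of `w`. -/
def cnt {N : ℕ} (w : Fin N → Fin 3) (r : Fin 3) (k : ℕ) : ℕ :=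
  (univ.filter fun i : Fin N => i.val < k ∧ w i = r).card

/-- Ballot words. -/
def Bal {N : ℕ} (w : Fin N → Fin 3) : Prop :=
  ∀ k ≤ N, cnt w 1 k ≤ cnt w 0 k ∧ cnt w 2 k ≤ cnt w 1 k

/-- Weight of the word `w` followed by the letter `s`: product of `M a b` over consecutive
letters `a, b` of the word `w s`. -/
def wt {A : Type*} [CommRing A] (M : Fin 3 → Fin 3 → A) {N : ℕ} (w : Fin N → Fin 3)
    (s : Fin 3) : A :=
  ∏ i : Fin N, M (w i) ((Fin.snoc w s : Fin (N + 1) → Fin 3) i.succ)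

open Classical in
/-- Total weight of the ballot words of length `N` with content `(x,y,z)`, followed by `s`. -/
noncomputable def Z {A : Type*} [CommRing A] (M : Fin 3 → Fin 3 → A) (N : ℕ) (s : Fin 3)
    (x y z : ℤ) : A :=
  ∑ w : Fin N → Fin 3 with
    (Bal w ∧ (cnt w 0 N : ℤ) = x ∧ (cnt w 1 N : ℤ) = y ∧ (cnt w 2 N : ℤ) = z), wt M w s

/-- Transition weights of the statistic `#{i : E (w i) (w (i+1))}`. -/
def ME {A : Type*} [CommRing A] (E : Fin 3 → Fin 3 → Prop) [DecidableRel E] (q : A)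
    (r s : Fin 3) : A := if E r s then q else 1

/-- Ascents: the row index goes down. -/
def Easc (r s : Fin 3) : Prop := s < r

instance : DecidableRel Easc := fun r s => inferInstanceAs (Decidable (s < r))

/-- Pairs counted by `b₁₂ + b₂₂ + b₂₃`. -/
def Est (r s : Fin 3) : Prop := (r = 0 ∧ s = 1) ∨ (r = 1 ∧ s = 1) ∨ (r = 1 ∧ s = 2)

instance : DecidableRel Est := fun r s =>
  inferInstanceAs (Decidable ((r = 0 ∧ s = 1) ∨ (r = 1 ∧ s = 1) ∨ (r = 1 ∧ s = 2)))

/-- `f_{m,k}`: the number of standard tableaux of shape `(m,m,m-k)`. -/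
def ff (m k : ℕ) : ℚ :=
  ((3 * m - k).factorial * ((k + 1) * (k + 2)) : ℕ) /
    (((m + 2).factorial * (m + 1).factorial * (m - k).factorial : ℕ) : ℚ)

end Sul
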