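import Pool.Agent.R666.Sul.Defs

set_option autoImplicit false

/-! Piece A: tableaux and ballot words. -/

namespace Sul

open Finset

namespace PA

lemma range_row {n : ℕ} (T : SYT n) (r : Fin 3) :
    Set.range (fun c => T.1 (r, c)) = {i | R T i = r} := by
  ext i
  simp only [Set.mem_range, Set.mem_ofPred_eq, R]
  constructor
  · rintro ⟨c, rfl⟩
    rw [Equiv.symm_apply_apply]
  · intro h
    refine ⟨(T.1.symm i).2, ?_⟩
    rw [← h]
    exact T.1.apply_symm_apply i

/-- Counting a letter along an injective enumeration of its positions. -/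
lemma cnt_enum {N n : ℕ} (w : Fin N → Fin 3) (r : Fin 3) (f : Fin n → Fin N)
    (hf : Function.Injective f) (hr : Set.range f = {i | w i = r}) (k : ℕ) :
    cnt w r k = (univ.filter fun c : Fin n => (f c).val < k).card := by
  unfold cnt
  symm
  apply Finset.card_bij (fun c _ => f c)
  · intro c hc
    rw [mem_filter] at hc ⊢
    have h1 : f c ∈ {i | w i = r} := hr ▸ Set.mem_range_self c
    exact ⟨mem_univ _, hc.2, h1⟩
  · intro c _ c' _ h
    exact hf h
  · intro i hi
    rw [mem_filter] at hi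
    have h1 : i ∈ Set.range f := by rw [hr]; exact hi.2.2
    obtain ⟨c, rfl⟩ := h1
    exact ⟨c, by rw [mem_filter]; exact ⟨mem_univ _, hi.2.1⟩, rfl⟩

lemma cnt_R {n : ℕ} (T : SYT n) (r : Fin 3) (k : ℕ) :
    cnt (R T) r k = (univ.filter fun c : Fin n => (T.1 (r, c)).val < k).card :=
  cnt_enum _ _ (fun c => T.1 (r, c)) (T.2.1 r).injective (range_row T r) k

lemma cnt_all {N : ℕ} (w : Fin N → Fin 3) (r : Fin 3) :
    cnt w r N = (univ.filter fun i : Fin N => w i = r).card := by
  unfold cnt
  congr 1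
  ext i
  simp

/-- Comparison of the enumerations of two letters. -/
lemma col_lt {N n : ℕ} (w : Fin N → Fin 3) (r r' : Fin 3) (hrr : r ≠ r')
    (f f' : Fin n → Fin N) (hf : StrictMono f) (hf' : StrictMono f')
    (hr : Set.range f = {i | w i = r}) (hr' : Set.range f' = {i | w i = r'})
    (hle : ∀ k ≤ N, cnt w r' k ≤ cnt w r k) (c : Fin n) : f c < f' c := by
  have h1 := hle ((f' c).val + 1) (by have := (f' c).2; omega)
  rw [cnt_enum w r' f' hf'.injective hr', cnt_enum w r f hf.injective hr] at h1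
  have h2 : c.val + 1 ≤ (univ.filter fun d : Fin n => (f' d).val < (f' c).val + 1).card := by
    rw [← Fin.card_Iic c]
    apply Finset.card_le_card
    intro d hd
    rw [mem_filter]
    refine ⟨mem_univ _, ?_⟩
    have : f' d ≤ f' c := hf'.monotone (Finset.mem_Iic.1 hd)
    have := Fin.le_def.1 this
    omega
  have h3 : (f c).val < (f' c).val + 1 := by
    by_contra hcon
    have h4 : (univ.filter fun d : Fin n => (f d).val < (f' c).val + 1).card ≤ c.val := by
      rw [← Fin.card_Iio c]
      apply Finset.card_le_card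
      intro d hd
      rw [mem_filter] at hd
      rw [Finset.mem_Iio]
      by_contra hdc
      have : f c ≤ f d := hf.monotone (not_lt.1 hdc)
      have := Fin.le_def.1 this
      omega
    omega
  have h4 : f c ≠ f' c := by
    intro h
    have h5 : f c ∈ {i | w i = r} := hr ▸ Set.mem_range_self c
    have h6 : f' c ∈ {i | w i = r'} := hr' ▸ Set.mem_range_self c
    rw [← h] at h6
    exact hrr (h5.symm.trans h6)
  rw [Fin.lt_def]
  have : (f c).val ≠ (f' c).val := fun h => h4 (Fin.ext h)
  omega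

end PA

open PA

/-! Piece A1: words of tableaux. -/
theorem R_injective (n : ℕ) : Function.Injective (R : SYT n → Fin (3 * n) → Fin 3) := by
  intro S T h
  apply Subtype.ext
  apply Equiv.ext
  rintro ⟨r, c⟩
  have h1 : Set.range (fun c => S.1 (r, c)) = Set.range (fun c => T.1 (r, c)) := by
    rw [range_row, range_row, h]
  have h2 := ((S.2.1 r).range_inj (T.2.1 r)).1 h1
  exact congrFun h2 c

theorem exists_R_iff (n : ℕ) (w : Fin (3 * n) → Fin 3) :
    (∃ T : SYT n, R T = w) ↔
      Bal w ∧ cnt w 0 (3 * n) = n ∧ cnt w 1 (3 * n) = n ∧ cnt w 2 (3 * n) = n := by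
  constructor
  · rintro ⟨T, rfl⟩
    have hall : ∀ r, cnt (R T) r (3 * n) = n := by
      intro r
      rw [cnt_R, filter_true_of_mem fun c _ => (T.1 (r, c)).2]
      simp
    have hstep : ∀ r r' : Fin 3, r < r' → ∀ k, cnt (R T) r' k ≤ cnt (R T) r k := by
      intro r r' hr k
      rw [cnt_R, cnt_R]
      apply Finset.card_le_card
      intro c hc
      rw [mem_filter] at hc ⊢
      have h1 : T.1 (r, c) < T.1 (r', c) := T.2.2 c hr
      have h2 := Fin.lt_def.1 h1
      exact ⟨mem_univ _, by omega⟩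
    exact ⟨fun k _ => ⟨hstep 0 1 (by decide) k, hstep 1 2 (by decide) k⟩, hall 0, hall 1, hall 2⟩
  · rintro ⟨hB, h0, h1, h2⟩
    have hall : ∀ r : Fin 3, (univ.filter fun i : Fin (3 * n) => w i = r).card = n := by
      intro r
      rw [← cnt_all]
      fin_cases r
      · exact h0
      · exact h1
      · exact h2
    let f : Fin 3 → Fin n → Fin (3 * n) := fun r =>
      (univ.filter fun i : Fin (3 * n) => w i = r).orderEmbOfFin (hall r)
    have hf : ∀ r, StrictMono (f r) := fun r =>
      ((univ.filter fun i : Fin (3 * n) => w i = r).orderEmbOfFin (hall r)).strictMono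
    have hfr : ∀ r, Set.range (f r) = {i | w i = r} := by
      intro r
      have := (univ.filter fun i : Fin (3 * n) => w i = r).range_orderEmbOfFin (hall r)
      rw [show Set.range (f r) = _ from this]
      ext i
      simp
    have hwf : ∀ r c, w (f r c) = r := fun r c => by
      have : f r c ∈ {i | w i = r} := hfr r ▸ Set.mem_range_self c
      exact this
    have hinj : Function.Injective fun p : Fin 3 × Fin n => f p.1 p.2 := by
      rintro ⟨r, c⟩ ⟨r', c'⟩ h
      have h3 : f r c = f r' c' := h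
      have h4 : r = r' := by rw [← hwf r c, h3, hwf]
      subst h4
      rw [(hf r).injective h3]
    have hbij : Function.Bijective fun p : Fin 3 × Fin n => f p.1 p.2 :=
      (Fintype.bijective_iff_injective_and_card _).2 ⟨hinj, by simp⟩
    let e : Fin 3 × Fin n ≃ Fin (3 * n) := Equiv.ofBijective _ hbij
    have he : ∀ r c, e (r, c) = f r c := fun r c => rfl
    have hcol : ∀ c, StrictMono fun r => e (r, c) := by
      intro c
      have h01 : f 0 c < f 1 c := col_lt w 0 1 (by decide) _ _ (hf 0) (hf 1) (hfr 0) (hfr 1)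
        (fun k hk => (hB k hk).1) c
      have h12 : f 1 c < f 2 c := col_lt w 1 2 (by decide) _ _ (hf 1) (hf 2) (hfr 1) (hfr 2)
        (fun k hk => (hB k hk).2) c
      rw [Fin.strictMono_iff_lt_succ]
      intro i
      fin_cases i
      · exact h01
      · exact h12
    refine ⟨⟨e, hf, hcol⟩, ?_⟩
    funext i
    show (e.symm i).1 = w i
    conv_rhs => rw [← e.apply_symm_apply i]
    exact (hwf (e.symm i).1 (e.symm i).2).symm

/-! Piece A2: weights of tableaux. -/

namespace PA

lemma wt_gen {A : Type*} [CommRing A] (E : Fin 3 → Fin 3 → Prop) [DecidableRel E] (q : A)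
    {N : ℕ} (w : Fin (N + 1) → Fin 3) (s : Fin 3) :
    wt (ME E q) w s = q ^ Nat.card {p : Fin (N + 1) × Fin (N + 1) //
      p.1.val + 1 = p.2.val ∧ E (w p.1) (w p.2)} * ME E q (w (Fin.last N)) s := by
  unfold wt
  rw [Fin.prod_univ_castSucc]
  congr 1
  · have h1 : ∀ i : Fin N, ME E q (w i.castSucc)
        ((Fin.snoc w s : Fin (N + 1 + 1) → Fin 3) i.castSucc.succ) =
        if E (w i.castSucc) (w i.succ) then q else 1 := by
      intro i
      rw [Fin.succ_castSucc, Fin.snoc_castSucc]
      rfl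
    rw [Finset.prod_congr rfl fun i _ => h1 i, Finset.prod_ite, Finset.prod_const_one, mul_one,
      Finset.prod_const]
    congr 1
    rw [← Fintype.card_subtype, ← Nat.card_eq_fintype_card]
    apply Nat.card_congr
    refine ⟨fun i => ⟨(i.1.castSucc, i.1.succ), by simp, i.2⟩, fun p => ⟨⟨p.1.1.val, ?_⟩, ?_⟩,
      ?_, ?_⟩
    · have h2 := p.2.1
      have h3 := p.1.2.2
      omega
    · have h2 := p.2.1
      have h4 := p.2.2
      have e1 : (⟨p.1.1.val, by have h3 := p.1.2.2; omega⟩ : Fin N).castSucc = p.1.1 :=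
        Fin.ext rfl
      have e2 : (⟨p.1.1.val, by have h3 := p.1.2.2; omega⟩ : Fin N).succ = p.1.2 :=
        Fin.ext h2
      rw [e1, e2]
      exact h4
    · intro i
      rfl
    · intro p
      apply Subtype.ext
      apply Prod.ext
      · exact Fin.ext rfl
      · exact Fin.ext p.2.1
  · rw [Fin.succ_last, Fin.snoc_last]

lemma R_last {n : ℕ} (T : SYT n) (i : Fin (3 * n)) (hi : i.val + 1 = 3 * n) : R T i = 2 := by
  by_contra hne
  have hlt : R T i < 2 := lt_of_le_of_ne (Fin.le_last _) hne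
  have h1 : T.1 (R T i, (T.1.symm i).2) < T.1 (2, (T.1.symm i).2) := T.2.2 _ hlt
  have h2 : T.1 (R T i, (T.1.symm i).2) = i := T.1.apply_symm_apply i
  rw [h2] at h1
  have h3 := Fin.lt_def.1 h1
  have h4 := (T.1 (2, (T.1.symm i).2)).2
  omega

lemma wt_gen' {A : Type*} [CommRing A] (E : Fin 3 → Fin 3 → Prop) [DecidableRel E] (q : A)
    {N : ℕ} (w : Fin N → Fin 3) (s : Fin 3) (i : Fin N) (hi : i.val + 1 = N) :
    wt (ME E q) w s = q ^ Nat.card {p : Fin N × Fin N //
      p.1.val + 1 = p.2.val ∧ E (w p.1) (w p.2)} * ME E q (w i) s := by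
  cases N with
  | zero => exact absurd i.2 (by omega)
  | succ N =>
    have : i = Fin.last N := Fin.ext (by simp; omega)
    rw [this]
    exact wt_gen E q w s

end PA

theorem wt_R {A : Type*} [CommRing A] (E : Fin 3 → Fin 3 → Prop) [DecidableRel E] (q : A)
    {n : ℕ} (hn : 1 ≤ n) (T : SYT n) (s : Fin 3) :
    wt (ME E q) (R T) s = q ^ stat E T * ME E q 2 s := by
  have h1 : 3 * n - 1 < 3 * n := by omega
  have h2 : (⟨3 * n - 1, h1⟩ : Fin (3 * n)).val + 1 = 3 * n := by
    show 3 * n - 1 + 1 = 3 * n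
    omega
  rw [wt_gen' E q (R T) s ⟨3 * n - 1, h1⟩ h2, R_last T _ h2]
  rfl

/-! Piece A3 (from A1, A2). -/
theorem Z_rect {A : Type*} [CommRing A] (E : Fin 3 → Fin 3 → Prop) [DecidableRel E] (q : A)
    {n : ℕ} (hn : 1 ≤ n) (s : Fin 3) [Fintype (SYT n)] :
    Z (ME E q) (3 * n) s n n n = (∑ T : SYT n, q ^ stat E T) * ME E q 2 s := by
  classical
  rw [Finset.sum_mul, Z]
  symm
  apply Finset.sum_bij (fun (T : SYT n) _ => R T)
  · intro T _
    obtain ⟨h1, h2, h3, h4⟩ := (exists_R_iff n (R T)).1 ⟨T, rfl⟩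
    exact Finset.mem_filter.2 ⟨mem_univ _, h1, by rw [h2], by rw [h3], by rw [h4]⟩
  · intro S _ T _ h
    exact R_injective n h
  · intro w hw
    obtain ⟨-, h1, h2, h3, h4⟩ := Finset.mem_filter.1 hw
    obtain ⟨T, hT⟩ := (exists_R_iff n w).2 ⟨h1, by exact_mod_cast h2, by exact_mod_cast h3,
      by exact_mod_cast h4⟩
    exact ⟨T, mem_univ _, hT⟩
  · intro T _
    exact (wt_R E q hn T s).symm

end Sul
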