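import Pool.Agent.R666.Sul.Defs

namespace Sul

open Finset

theorem cnt_snoc_le {N : ℕ} (w : Fin N → Fin 3) (t r : Fin 3) (k : ℕ) (hk : k ≤ N) :
    cnt (Fin.snoc w t : Fin (N + 1) → Fin 3) r k = cnt w r k := by
  unfold cnt
  rw [Finset.card_filter, Finset.card_filter, Fin.sum_univ_castSucc]
  have h : ¬ ((Fin.last N).val < k ∧ (Fin.snoc w t : Fin (N + 1) → Fin 3) (Fin.last N) = r) := by
    rintro ⟨h, -⟩
    simp only [Fin.val_last] at h
    omega
  rw [if_neg h, add_zero]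
  refine Finset.sum_congr rfl fun i _ => ?_
  rw [Fin.snoc_castSucc (α := fun _ => Fin 3)]
  rfl

theorem cnt_snoc_last {N : ℕ} (w : Fin N → Fin 3) (t r : Fin 3) :
    cnt (Fin.snoc w t : Fin (N + 1) → Fin 3) r (N + 1) = cnt w r N + if t = r then 1 else 0 := by
  unfold cnt
  rw [Finset.card_filter, Finset.card_filter, Fin.sum_univ_castSucc]
  congr 1
  · refine Finset.sum_congr rfl fun i _ => ?_
    rw [Fin.snoc_castSucc (α := fun _ => Fin 3)]
    have h1 : i.castSucc.val < N + 1 := i.castSucc.isLt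
    have h2 : i.val < N := i.isLt
    simp only [h1, h2, true_and]
  · rw [Fin.snoc_last (α := fun _ => Fin 3)]
    simp

theorem bal_snoc {N : ℕ} (w : Fin N → Fin 3) (t : Fin 3) :
    Bal (Fin.snoc w t : Fin (N + 1) → Fin 3) ↔ Bal w ∧
      (cnt (Fin.snoc w t : Fin (N + 1) → Fin 3) 1 (N + 1) ≤
        cnt (Fin.snoc w t : Fin (N + 1) → Fin 3) 0 (N + 1) ∧
      cnt (Fin.snoc w t : Fin (N + 1) → Fin 3) 2 (N + 1) ≤
        cnt (Fin.snoc w t : Fin (N + 1) → Fin 3) 1 (N + 1)) := by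
  constructor
  · intro h
    refine ⟨fun k hk => ?_, h (N + 1) le_rfl⟩
    have := h k (by omega)
    rwa [cnt_snoc_le w t 0 k hk, cnt_snoc_le w t 1 k hk, cnt_snoc_le w t 2 k hk] at this
  · rintro ⟨h1, h2⟩ k hk
    rcases Nat.lt_or_ge k (N + 1) with hlt | hge
    · have hk' : k ≤ N := by omega
      rw [cnt_snoc_le w t 0 k hk', cnt_snoc_le w t 1 k hk', cnt_snoc_le w t 2 k hk']
      exact h1 k hk'
    · have : k = N + 1 := by omega
      subst this
      exact h2

theorem wt_snoc {A : Type*} [CommRing A] (M : Fin 3 → Fin 3 → A) {N : ℕ} (w : Fin N → Fin 3)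
    (t s : Fin 3) :
    wt M (Fin.snoc w t : Fin (N + 1) → Fin 3) s = wt M w t * M t s := by
  unfold wt
  rw [Fin.prod_univ_castSucc]
  congr 1
  · refine Finset.prod_congr rfl fun i _ => ?_
    rw [Fin.snoc_castSucc (α := fun _ => Fin 3)]
    congr 1
    have : i.castSucc.succ = i.succ.castSucc := rfl
    rw [this, Fin.snoc_castSucc (α := fun _ => Fin 3)]
  · rw [Fin.snoc_last (α := fun _ => Fin 3), Fin.succ_last, Fin.snoc_last (α := fun _ => Fin 3)]

open Classical in
theorem Z_succ {A : Type*} [CommRing A] (M : Fin 3 → Fin 3 → A) (N : ℕ) (s : Fin 3)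
    (x y z : ℤ) (hzy : z ≤ y) (hyx : y ≤ x) :
    Z M (N + 1) s x y z = M 0 s * Z M N 0 (x - 1) y z + M 1 s * Z M N 1 x (y - 1) z
      + M 2 s * Z M N 2 x y (z - 1) := by
  have key : ∀ t : Fin 3,
      (∑ w : Fin N → Fin 3, if (Bal (Fin.snoc w t : Fin (N + 1) → Fin 3) ∧
        (cnt (Fin.snoc w t : Fin (N + 1) → Fin 3) 0 (N + 1) : ℤ) = x ∧
        (cnt (Fin.snoc w t : Fin (N + 1) → Fin 3) 1 (N + 1) : ℤ) = y ∧
        (cnt (Fin.snoc w t : Fin (N + 1) → Fin 3) 2 (N + 1) : ℤ) = z) then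
        wt M (Fin.snoc w t : Fin (N + 1) → Fin 3) s else 0)
      = M t s * Z M N t (x - if t = 0 then 1 else 0) (y - if t = 1 then 1 else 0)
        (z - if t = 2 then 1 else 0) := by
    intro t
    unfold Z
    rw [Finset.sum_filter, Finset.mul_sum]
    refine Finset.sum_congr rfl fun w _ => ?_
    rw [bal_snoc, wt_snoc, cnt_snoc_last, cnt_snoc_last, cnt_snoc_last]
    have hiff : ((Bal w ∧ cnt w 1 N + (if t = 1 then 1 else 0) ≤ cnt w 0 N + (if t = 0 then 1 else 0)
        ∧ cnt w 2 N + (if t = 2 then 1 else 0) ≤ cnt w 1 N + (if t = 1 then 1 else 0)) ∧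
        ((cnt w 0 N + (if t = 0 then 1 else 0) : ℕ) : ℤ) = x ∧
        ((cnt w 1 N + (if t = 1 then 1 else 0) : ℕ) : ℤ) = y ∧
        ((cnt w 2 N + (if t = 2 then 1 else 0) : ℕ) : ℤ) = z) ↔
        (Bal w ∧ (cnt w 0 N : ℤ) = x - (if t = 0 then 1 else 0) ∧
          (cnt w 1 N : ℤ) = y - (if t = 1 then 1 else 0) ∧
          (cnt w 2 N : ℤ) = z - (if t = 2 then 1 else 0)) := by
      constructor
      · rintro ⟨⟨h1, -, -⟩, h2, h3, h4⟩
        refine ⟨h1, ?_, ?_, ?_⟩
        · rw [← h2]; push_cast; ring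
        · rw [← h3]; push_cast; ring
        · rw [← h4]; push_cast; ring
      · rintro ⟨h1, h2, h3, h4⟩
        have e2 : ((cnt w 0 N + (if t = 0 then 1 else 0) : ℕ) : ℤ) = x := by
          push_cast; rw [h2]; ring
        have e3 : ((cnt w 1 N + (if t = 1 then 1 else 0) : ℕ) : ℤ) = y := by
          push_cast; rw [h3]; ring
        have e4 : ((cnt w 2 N + (if t = 2 then 1 else 0) : ℕ) : ℤ) = z := by
          push_cast; rw [h4]; ring
        refine ⟨⟨h1, ?_, ?_⟩, e2, e3, e4⟩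
        · have : ((cnt w 1 N + (if t = 1 then 1 else 0) : ℕ) : ℤ) ≤
              ((cnt w 0 N + (if t = 0 then 1 else 0) : ℕ) : ℤ) := by rw [e2, e3]; exact hyx
          exact_mod_cast this
        · have : ((cnt w 2 N + (if t = 2 then 1 else 0) : ℕ) : ℤ) ≤
              ((cnt w 1 N + (if t = 1 then 1 else 0) : ℕ) : ℤ) := by rw [e3, e4]; exact hzy
          exact_mod_cast this
    by_cases hc : (Bal w ∧ (cnt w 0 N : ℤ) = x - (if t = 0 then 1 else 0) ∧
          (cnt w 1 N : ℤ) = y - (if t = 1 then 1 else 0) ∧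
          (cnt w 2 N : ℤ) = z - (if t = 2 then 1 else 0))
    · rw [if_pos (hiff.mpr hc), if_pos hc, mul_comm]
    · rw [if_neg (fun h => hc (hiff.mp h)), if_neg hc, mul_zero]
  have h0 := key 0
  have h1 := key 1
  have h2 := key 2
  simp only [if_true, if_false, sub_zero, show ((0 : Fin 3) = 1) = False by simp,
    show ((0 : Fin 3) = 2) = False by simp, show ((1 : Fin 3) = 0) = False by simp,
    show ((1 : Fin 3) = 2) = False by simp, show ((2 : Fin 3) = 0) = False by simp,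
    show ((2 : Fin 3) = 1) = False by simp] at h0 h1 h2
  rw [← h0, ← h1, ← h2]
  conv_lhs => unfold Z
  rw [Finset.sum_filter,
    ← (Fin.snocEquiv (fun _ : Fin (N + 1) => Fin 3)).sum_comp, Fintype.sum_prod_type,
    Fin.sum_univ_three]
  rfl

open Classical in
theorem Z_out {A : Type*} [CommRing A] (M : Fin 3 → Fin 3 → A) (N : ℕ) (s : Fin 3)
    (x y z : ℤ) (h : ¬ (0 ≤ z ∧ z ≤ y ∧ y ≤ x)) : Z M N s x y z = 0 := by
  unfold Z
  rw [Finset.sum_filter]
  refine Finset.sum_eq_zero fun w _ => ?_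
  rw [if_neg]
  rintro ⟨hb, h1, h2, h3⟩
  apply h
  have := hb N le_rfl
  refine ⟨?_, ?_, ?_⟩
  · rw [← h3]; positivity
  · rw [← h3, ← h2]; exact_mod_cast this.2
  · rw [← h2, ← h1]; exact_mod_cast this.1

open Classical in
theorem Z_zero {A : Type*} [CommRing A] (M : Fin 3 → Fin 3 → A) (s : Fin 3) :
    Z M 0 s 0 0 0 = 1 := by
  unfold Z
  rw [Finset.sum_filter, Finset.sum_eq_single (fun i : Fin 0 => i.elim0)]
  · rw [if_pos]
    · simp [wt]
    · refine ⟨?_, ?_, ?_, ?_⟩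
      · intro k hk
        simp [cnt]
      all_goals simp [cnt]
  · intro b _ hb
    exact absurd (Subsingleton.elim _ _) hb
  · intro h
    exact absurd (Finset.mem_univ _) h

/-! Piece B: the reflection (master) lemma. -/
theorem Z_eq {A : Type*} [CommRing A] (M : Fin 3 → Fin 3 → A) (φ : Fin 3 → ℤ → ℤ → ℤ → A)
    (L : ℤ)
    (hbulk : ∀ s x y z, 0 ≤ z → z ≤ y → y ≤ x → x ≤ L →
      φ s x y z = (if x = 0 ∧ y = 0 ∧ z = 0 then 1 else 0) + M 0 s * φ 0 (x - 1) y z
        + M 1 s * φ 1 x (y - 1) z + M 2 s * φ 2 x y (z - 1))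
    (h0 : ∀ x z, φ 0 x (x + 1) z = 0) (h1 : ∀ x y, φ 1 x y (y + 1) = 0)
    (h2 : ∀ x y, φ 2 x y (-1) = 0)
    (N : ℕ) (s : Fin 3) (x y z : ℤ) (hz : 0 ≤ z) (hzy : z ≤ y) (hyx : y ≤ x) (hx : x ≤ L)
    (hN : (N : ℤ) = x + y + z) : Z M N s x y z = φ s x y z := by
  induction N generalizing s x y z with
  | zero =>
    have hx0 : x = 0 := by push_cast at hN; omega
    have hy0 : y = 0 := by push_cast at hN; omega
    have hz0 : z = 0 := by push_cast at hN; omega
    subst hx0 hy0 hz0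
    rw [Z_zero, hbulk s 0 0 0 le_rfl le_rfl le_rfl hx]
    have e0 : φ 0 (0 - 1) 0 0 = 0 := by have := h0 (-1) 0; simpa using this
    have e1 : φ 1 0 (0 - 1) 0 = 0 := by have := h1 0 (-1); simpa using this
    have e2 : φ 2 0 0 (0 - 1) = 0 := by have := h2 0 0; simpa using this
    rw [e0, e1, e2]
    simp
  | succ N ih =>
    rw [Z_succ M N s x y z hzy hyx, hbulk s x y z hz hzy hyx hx]
    have hne : ¬ (x = 0 ∧ y = 0 ∧ z = 0) := by
      rintro ⟨rfl, rfl, rfl⟩
      push_cast at hN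
      omega
    rw [if_neg hne, zero_add]
    push_cast at hN
    congr 1
    · congr 1
      · congr 1
        by_cases hc : y ≤ x - 1
        · exact ih 0 (x - 1) y z hz hzy hc (by omega) (by omega)
        · rw [Z_out M N 0 (x - 1) y z (fun h => hc h.2.2)]
          have : y = (x - 1) + 1 := by omega
          rw [this, h0]
      · congr 1
        by_cases hc : z ≤ y - 1
        · exact ih 1 x (y - 1) z hz hc (by omega) hx (by omega)
        · rw [Z_out M N 1 x (y - 1) z (fun h => hc h.2.1)]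
          have : z = (y - 1) + 1 := by omega
          rw [this, h1]
    · congr 1
      by_cases hc : 0 ≤ z - 1
      · exact ih 2 x y (z - 1) hc (by omega) hyx hx (by omega)
      · rw [Z_out M N 2 x y (z - 1) (fun h => hc h.1)]
        have : z - 1 = -1 := by omega
        rw [this, h2]

end Sul
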