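import Pool.Agent.R666.Sul.Defs

namespace Sul

open Finset

/-- reciprocal factorial on `ℤ`. -/
def rf (x : ℤ) : ℚ := if x < 0 then 0 else ((x.toNat.factorial : ℕ) : ℚ)⁻¹

lemma rf_neg {x : ℤ} (h : x < 0) : rf x = 0 := by simp [rf, h]

lemma rf_nat (k : ℕ) : rf (k : ℤ) = ((k.factorial : ℕ) : ℚ)⁻¹ := by
  simp [rf]

lemma rf_pred (x : ℤ) : rf (x - 1) = (x : ℚ) * rf x := by
  rcases lt_trichotomy x 0 with h | h | h
  · rw [rf_neg h, rf_neg (by omega)]; ring
  · subst h; rw [rf_neg (by omega)]; simp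
  · obtain ⟨k, rfl⟩ : ∃ k : ℕ, x = (k : ℤ) + 1 := ⟨(x - 1).toNat, by omega⟩
    have e1 : (k : ℤ) + 1 - 1 = (k : ℤ) := by ring
    have e2 : ((k : ℤ) + 1) = ((k + 1 : ℕ) : ℤ) := by push_cast; ring
    rw [e1, e2, rf_nat, rf_nat, Nat.factorial_succ]
    have : ((k.factorial : ℕ) : ℚ) ≠ 0 := by positivity
    push_cast
    field_simp

/-- `(N-3)!` for `N ≥ 3`, and `0` for `N < 3`. -/
def FF (N : ℤ) : ℚ := if N < 3 then 0 else (((N - 3).toNat.factorial : ℕ) : ℚ)

lemma FF_small {N : ℤ} (h : N < 3) : FF N = 0 := by simp [FF, h]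

lemma FF_rec {N : ℤ} (h : 3 < N) : FF N = ((N : ℚ) - 3) * FF (N - 1) := by
  obtain ⟨k, rfl⟩ : ∃ k : ℕ, N = (k : ℤ) + 4 := ⟨(N - 4).toNat, by omega⟩
  have h1 : ¬ ((k : ℤ) + 4 < 3) := by omega
  have h2 : ¬ ((k : ℤ) + 4 - 1 < 3) := by omega
  have e1 : ((k : ℤ) + 4 - 3).toNat = k + 1 := by omega
  have e2 : ((k : ℤ) + 4 - 1 - 3).toNat = k := by omega
  simp only [FF, h1, h2, if_false, e1, e2, Nat.factorial_succ]
  push_cast; ring

/-- closed form of the weighted walks, in shifted coordinates. -/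
def f (x y z : ℤ) : ℚ :=
  FF (x + y + z) * (((x : ℚ) - y) * (x - z) * (y - z)) * (rf x * rf y * rf z)

lemma f_small {x y z : ℤ} (h : x + y + z < 3) : f x y z = 0 := by
  simp [f, FF_small h]

lemma f_neg1 {x y z : ℤ} (h : x < 0) : f x y z = 0 := by simp [f, rf_neg h]
lemma f_neg2 {x y z : ℤ} (h : y < 0) : f x y z = 0 := by simp [f, rf_neg h]
lemma f_neg3 {x y z : ℤ} (h : z < 0) : f x y z = 0 := by simp [f, rf_neg h]

lemma f_eq12 (x z : ℤ) : f x x z = 0 := by simp [f]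
lemma f_eq23 (x y : ℤ) : f x y y = 0 := by simp [f]

lemma f_swap23 (x y z : ℤ) : f x z y = - f x y z := by
  have e : x + z + y = x + y + z := by ring
  simp only [f, e]; ring

/-- the source. -/
def w0 (x y z : ℤ) : ℚ := if x + y + z = 3 then f x y z else 0

lemma f_rec (x y z : ℤ) :
    f (x - 1) y z + f x (y - 1) z + f x y (z - 1) = f x y z - w0 x y z := by
  rcases lt_trichotomy (x + y + z) 3 with h | h | h
  · rw [f_small (x := x - 1) (by omega), f_small (y := y - 1) (by omega),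
      f_small (z := z - 1) (by omega), f_small h, w0, if_neg (by omega)]; ring
  · rw [f_small (x := x - 1) (by omega), f_small (y := y - 1) (by omega),
      f_small (z := z - 1) (by omega), w0, if_pos h]; ring
  · rw [w0, if_neg (by omega)]
    have e1 : x - 1 + y + z = x + y + z - 1 := by ring
    have e2 : x + (y - 1) + z = x + y + z - 1 := by ring
    have e3 : x + y + (z - 1) = x + y + z - 1 := by ring
    simp only [f, e1, e2, e3, rf_pred, FF_rec h]
    push_cast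
    ring

/-- binomial factor. -/
def BB (N : ℤ) (j : ℕ) : ℚ := (((N - 3 - 2 * j).toNat.choose j : ℕ) : ℚ)

lemma BB_zero (N : ℤ) : BB N 0 = 1 := by simp [BB]

lemma term_id (x y z : ℤ) (j : ℕ) :
    BB (x + y + z) (j + 1) * f (x - (j + 1 : ℕ)) (y - (j + 1 : ℕ)) (z - (j + 1 : ℕ)) =
      BB (x + y + z - 1) (j + 1) *
        (f (x - (j + 1 : ℕ)) (y - (j + 1 : ℕ)) (z - (j + 1 : ℕ)) -
          w0 (x - (j + 1 : ℕ)) (y - (j + 1 : ℕ)) (z - (j + 1 : ℕ))) +
      BB (x + y + z - 3) j * f (x - (j + 1 : ℕ)) (y - (j + 1 : ℕ)) (z - (j + 1 : ℕ)) := by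
  have es : (x - (j + 1 : ℕ)) + (y - (j + 1 : ℕ)) + (z - (j + 1 : ℕ)) =
      x + y + z - 3 * j - 3 := by push_cast; ring
  rcases lt_trichotomy (x + y + z - 3 * j - 3) 3 with h | h | h
  · rw [f_small (by rw [es]; exact h), w0, if_neg (by rw [es]; omega)]; ring
  · rw [w0, if_pos (by rw [es]; exact h)]
    have e1 : BB (x + y + z) (j + 1) = 1 := by
      have : (x + y + z - 3 - 2 * ((j + 1 : ℕ) : ℤ)).toNat = j + 1 := by push_cast; omega
      rw [BB, this, Nat.choose_self, Nat.cast_one]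
    have e2 : BB (x + y + z - 3) j = 1 := by
      have : (x + y + z - 3 - 3 - 2 * (j : ℤ)).toNat = j := by omega
      rw [BB, this, Nat.choose_self, Nat.cast_one]
    rw [e1, e2]; ring
  · rw [w0, if_neg (by rw [es]; omega)]
    obtain ⟨b, hb⟩ : ∃ b : ℕ, x + y + z - 3 - 2 * ((j + 1 : ℕ) : ℤ) = (b : ℤ) + 1 :=
      ⟨(x + y + z - 3 - 2 * ((j + 1 : ℕ) : ℤ) - 1).toNat, by push_cast; omega⟩
    have e1 : (x + y + z - 3 - 2 * ((j + 1 : ℕ) : ℤ)).toNat = b + 1 := by omega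
    have e2 : (x + y + z - 1 - 3 - 2 * ((j + 1 : ℕ) : ℤ)).toNat = b := by omega
    have e3 : (x + y + z - 3 - 3 - 2 * (j : ℤ)).toNat = b := by push_cast at hb; omega
    have : BB (x + y + z) (j + 1) = BB (x + y + z - 1) (j + 1) + BB (x + y + z - 3) j := by
      simp only [BB, e1, e2, e3, Nat.choose_succ_succ]
      push_cast; ring
    rw [this]; ring

/-- the symmetric kernel applied to the source. -/
def Psi (L : ℕ) (c : ℚ) (x y z : ℤ) : ℚ :=
  ∑ j ∈ range L, c ^ j * (BB (x + y + z) j * f (x - j) (y - j) (z - j))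

lemma Psi_eq12 (L : ℕ) (c : ℚ) (x z : ℤ) : Psi L c x x z = 0 := by
  simp [Psi, f_eq12]

lemma Psi_swap23 (L : ℕ) (c : ℚ) (x y z : ℤ) : Psi L c x z y = - Psi L c x y z := by
  have e : x + z + y = x + y + z := by ring
  simp only [Psi, e, ← Finset.sum_neg_distrib]
  refine Finset.sum_congr rfl fun j _ => ?_
  rw [f_swap23]; ring

lemma Psi_neg2 (L : ℕ) (c : ℚ) {x y z : ℤ} (h : y < 0) : Psi L c x y z = 0 := by
  refine Finset.sum_eq_zero fun j _ => ?_
  rw [f_neg2 (by omega)]; ring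

lemma Psi_neg3 (L : ℕ) (c : ℚ) {x y z : ℤ} (h : z < 0) : Psi L c x y z = 0 := by
  refine Finset.sum_eq_zero fun j _ => ?_
  rw [f_neg3 (by omega)]; ring

lemma Psi_rec (L : ℕ) (c : ℚ) {x y z : ℤ} (hL : z < L) (hL0 : 0 < L) :
    Psi L c x y z = w0 x y z + Psi L c (x - 1) y z + Psi L c x (y - 1) z + Psi L c x y (z - 1)
      + c * Psi L c (x - 1) (y - 1) (z - 1) := by
  obtain ⟨K, rfl⟩ : ∃ K, L = K + 1 := ⟨L - 1, by omega⟩
  have s1 : Psi (K + 1) c (x - 1) y z + Psi (K + 1) c x (y - 1) z + Psi (K + 1) c x y (z - 1)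
      = ∑ j ∈ range (K + 1), c ^ j * (BB (x + y + z - 1) j *
        (f (x - j) (y - j) (z - j) - w0 (x - j) (y - j) (z - j))) := by
    simp only [Psi, ← Finset.sum_add_distrib]
    refine Finset.sum_congr rfl fun j _ => ?_
    rw [← f_rec]
    have e1 : x - 1 + y + z = x + y + z - 1 := by ring
    have e2 : x + (y - 1) + z = x + y + z - 1 := by ring
    have e3 : x + y + (z - 1) = x + y + z - 1 := by ring
    have g1 : x - 1 - (j : ℤ) = x - j - 1 := by ring
    have g2 : y - 1 - (j : ℤ) = y - j - 1 := by ring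
    have g3 : z - 1 - (j : ℤ) = z - j - 1 := by ring
    rw [e1, e2, e3, g1, g2, g3]; ring
  have s2 : c * Psi (K + 1) c (x - 1) (y - 1) (z - 1)
      = ∑ j ∈ range K, c ^ (j + 1) * (BB (x + y + z - 3) j *
        f (x - (j + 1 : ℕ)) (y - (j + 1 : ℕ)) (z - (j + 1 : ℕ))) := by
    have e1 : x - 1 + (y - 1) + (z - 1) = x + y + z - 3 := by ring
    rw [Psi, Finset.sum_range_succ, f_neg3 (z := z - 1 - (K : ℤ)) (by push_cast at hL; omega),
      mul_zero, mul_zero, add_zero, Finset.mul_sum, e1]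
    refine Finset.sum_congr rfl fun j _ => ?_
    have g1 : x - 1 - (j : ℤ) = x - (j + 1 : ℕ) := by push_cast; ring
    have g2 : y - 1 - (j : ℤ) = y - (j + 1 : ℕ) := by push_cast; ring
    have g3 : z - 1 - (j : ℤ) = z - (j + 1 : ℕ) := by push_cast; ring
    rw [g1, g2, g3]; ring
  have s3 : w0 x y z + Psi (K + 1) c (x - 1) y z + Psi (K + 1) c x (y - 1) z
      + Psi (K + 1) c x y (z - 1) + c * Psi (K + 1) c (x - 1) (y - 1) (z - 1)
      = w0 x y z + (Psi (K + 1) c (x - 1) y z + Psi (K + 1) c x (y - 1) z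
      + Psi (K + 1) c x y (z - 1)) + c * Psi (K + 1) c (x - 1) (y - 1) (z - 1) := by ring
  rw [s3, s1, s2, Psi, Finset.sum_range_succ', Finset.sum_range_succ']
  simp only [term_id]
  have : ∀ j : ℕ, c ^ (j + 1) * (BB (x + y + z - 1) (j + 1) *
        (f (x - (j + 1 : ℕ)) (y - (j + 1 : ℕ)) (z - (j + 1 : ℕ)) -
          w0 (x - (j + 1 : ℕ)) (y - (j + 1 : ℕ)) (z - (j + 1 : ℕ))) +
      BB (x + y + z - 3) j * f (x - (j + 1 : ℕ)) (y - (j + 1 : ℕ)) (z - (j + 1 : ℕ)))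
      = c ^ (j + 1) * (BB (x + y + z - 1) (j + 1) *
        (f (x - (j + 1 : ℕ)) (y - (j + 1 : ℕ)) (z - (j + 1 : ℕ)) -
          w0 (x - (j + 1 : ℕ)) (y - (j + 1 : ℕ)) (z - (j + 1 : ℕ)))) +
      c ^ (j + 1) * (BB (x + y + z - 3) j *
        f (x - (j + 1 : ℕ)) (y - (j + 1 : ℕ)) (z - (j + 1 : ℕ))) := fun j => by ring
  simp only [this, Finset.sum_add_distrib, BB_zero, Nat.cast_zero, sub_zero, pow_zero]
  ring

/-- `U = Psi/(1 - a X3)`. -/
def U (L : ℕ) (a c : ℚ) (x y z : ℤ) : ℚ := ∑ k ∈ range L, a ^ k * Psi L c x y (z - k)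

/-- `V = U/(1 - a X2)`. -/
def V (L : ℕ) (a c : ℚ) (x y z : ℤ) : ℚ := ∑ i ∈ range L, a ^ i * U L a c x (y - i) z

lemma U_eq12 (L : ℕ) (a c : ℚ) (x z : ℤ) : U L a c x x z = 0 := by
  simp [U, Psi_eq12]

lemma U_neg2 (L : ℕ) (a c : ℚ) {x y z : ℤ} (h : y < 0) : U L a c x y z = 0 := by
  refine Finset.sum_eq_zero fun k _ => ?_
  rw [Psi_neg2 _ _ h]; ring

lemma V_neg3 (L : ℕ) (a c : ℚ) {x y z : ℤ} (h : z < 0) : V L a c x y z = 0 := by
  refine Finset.sum_eq_zero fun i _ => ?_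
  rw [U, Finset.sum_eq_zero, mul_zero]
  intro k _
  rw [Psi_neg3 _ _ (by omega)]; ring

lemma V_sub (L : ℕ) (a c : ℚ) {x y z : ℤ} (hL : y < L) :
    V L a c x y z - a * V L a c x (y - 1) z = U L a c x y z := by
  have h1 : a * V L a c x (y - 1) z
      = ∑ i ∈ range L, a ^ (i + 1) * U L a c x (y - (i + 1 : ℕ)) z := by
    rw [V, Finset.mul_sum]
    refine Finset.sum_congr rfl fun i _ => ?_
    have : y - 1 - (i : ℤ) = y - (i + 1 : ℕ) := by push_cast; ring
    rw [this]; ring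
  have h2 := Finset.sum_range_succ' (fun i : ℕ => a ^ i * U L a c x (y - i) z) L
  rw [Finset.sum_range_succ] at h2
  rw [U_neg2 L a c (y := y - (L : ℤ)) (by omega)] at h2
  rw [h1, V]
  simp only [mul_zero, add_zero, pow_zero, Nat.cast_zero, sub_zero, one_mul] at h2
  linarith

lemma V_eq23 (L : ℕ) (a c : ℚ) (x y : ℤ) : V L a c x y y = 0 := by
  have key : V L a c x y y = - V L a c x y y := by
    conv_lhs => rw [V]
    conv_rhs => rw [V]
    simp only [U, Finset.mul_sum, ← Finset.sum_neg_distrib]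
    rw [Finset.sum_comm]
    refine Finset.sum_congr rfl fun i _ => Finset.sum_congr rfl fun k _ => ?_
    rw [Psi_swap23]; ring
  linarith

/-- the source of `V`. -/
def W (L : ℕ) (a : ℚ) (x y z : ℤ) : ℚ :=
  ∑ i ∈ range L, a ^ i * ∑ k ∈ range L, a ^ k * w0 x (y - i) (z - k)

lemma V_rec (L : ℕ) (a c : ℚ) {x y z : ℤ} (hL : z < L) (hL0 : 0 < L) :
    V L a c x y z = W L a x y z + V L a c (x - 1) y z + V L a c x (y - 1) z + V L a c x y (z - 1)
      + c * V L a c (x - 1) (y - 1) (z - 1) := by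
  simp only [V, U, W, Finset.mul_sum, ← Finset.sum_add_distrib]
  refine Finset.sum_congr rfl fun i _ => Finset.sum_congr rfl fun k _ => ?_
  rw [Psi_rec L c (x := x) (y := y - i) (z := z - k) (by omega) hL0]
  have g2 : y - 1 - (i : ℤ) = y - i - 1 := by ring
  have g3 : z - 1 - (k : ℤ) = z - k - 1 := by ring
  rw [g2, g3]; ring

lemma w0_chamber {x y z : ℤ} (hx : 2 ≤ x) (h : ¬ (x = 2 ∧ y = 1 ∧ z = 0)) (hyx : y < x)
    (hzx : z < x) (hne : x = 2 → y = 0 → z ≠ 1) : w0 x y z = 0 := by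
  rw [w0]
  split_ifs with h3
  · rcases lt_or_ge y 0 with h1 | h1
    · exact f_neg2 h1
    rcases lt_or_ge z 0 with h2 | h2
    · exact f_neg3 h2
    by_cases h4 : x = 2
    · exfalso
      subst h4
      have : y = 0 ∨ y = 1 := by omega
      rcases this with h5 | h5
      · exact hne rfl h5 (by omega)
      · exact h ⟨rfl, h5, by omega⟩
    · have : y = z := by omega
      subst this
      exact f_eq23 _ _
  · rfl

lemma f_210 : f 2 1 0 = 1 := by
  have h2 : Int.toNat 2 = 2 := rfl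
  norm_num [f, FF, rf, Nat.factorial, h2]

lemma W_chamber (L : ℕ) (a : ℚ) (hL0 : 0 < L) {x y z : ℤ} (hz : 0 ≤ z) (hzy : z < y)
    (hyx : y < x) : W L a x y z = if x = 2 ∧ y = 1 ∧ z = 0 then 1 else 0 := by
  split_ifs with h
  · obtain ⟨rfl, rfl, rfl⟩ := h
    rw [W, Finset.sum_eq_single 0]
    · rw [Finset.sum_eq_single 0]
      · simp [w0, f_210]
      · intro k _ hk
        have : (0 : ℤ) - k < 0 := by omega
        rw [w0]; split_ifs
        · rw [f_neg3 this]; ring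
        · ring
      · intro h; exact absurd (Finset.mem_range.2 hL0) h
    · intro i _ hi
      rw [Finset.sum_eq_zero, mul_zero]
      intro k _
      rw [w0]; split_ifs with h3
      · exfalso; omega
      · ring
    · intro h; exact absurd (Finset.mem_range.2 hL0) h
  · rw [W]
    refine Finset.sum_eq_zero fun i _ => ?_
    rw [Finset.sum_eq_zero, mul_zero]
    intro k _
    rw [w0_chamber (by omega) _ (by omega) (by omega) (by omega), mul_zero]
    intro h1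
    apply h
    omega

/-- the walk functions, unshifted coordinates. -/
noncomputable def phiA (L : ℕ) (q : ℚ) (s : Fin 3) (x y z : ℤ) : ℚ :=
  q ^ y * (if s = 0 then U L (1 - 1 / q) ((1 - q) ^ 2 / q) (x + 2) (y + 1) z
    else if s = 1 then V L (1 - 1 / q) ((1 - q) ^ 2 / q) (x + 2) (y + 1) z
      + (q - 1) * V L (1 - 1 / q) ((1 - q) ^ 2 / q) (x + 1) (y + 1) z
    else V L (1 - 1 / q) ((1 - q) ^ 2 / q) (x + 2) (y + 1) z
      + ((1 - q) ^ 2 / q) * V L (1 - 1 / q) ((1 - q) ^ 2 / q) (x + 1) y z)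

lemma phiA0 (L : ℕ) (q : ℚ) (x y z : ℤ) : phiA L q 0 x y z =
    q ^ y * U L (1 - 1 / q) ((1 - q) ^ 2 / q) (x + 2) (y + 1) z := by
  simp only [phiA, if_true]

lemma phiA1 (L : ℕ) (q : ℚ) (x y z : ℤ) : phiA L q 1 x y z =
    q ^ y * (V L (1 - 1 / q) ((1 - q) ^ 2 / q) (x + 2) (y + 1) z
      + (q - 1) * V L (1 - 1 / q) ((1 - q) ^ 2 / q) (x + 1) (y + 1) z) := by
  have h : ¬ ((1 : Fin 3) = 0) := by decide
  simp only [phiA, if_true, if_neg h]

lemma phiA2 (L : ℕ) (q : ℚ) (x y z : ℤ) : phiA L q 2 x y z =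
    q ^ y * (V L (1 - 1 / q) ((1 - q) ^ 2 / q) (x + 2) (y + 1) z
      + ((1 - q) ^ 2 / q) * V L (1 - 1 / q) ((1 - q) ^ 2 / q) (x + 1) y z) := by
  have h : ¬ ((2 : Fin 3) = 0) := by decide
  have h' : ¬ ((2 : Fin 3) = 1) := by decide
  simp only [phiA, if_neg h, if_neg h']

lemma phiA_h0 (L : ℕ) (q : ℚ) (x z : ℤ) : phiA L q 0 x (x + 1) z = 0 := by
  have : x + 1 + 1 = x + 2 := by ring
  simp [phiA, this, U_eq12]

lemma phiA_h1 (L : ℕ) (q : ℚ) (x y : ℤ) : phiA L q 1 x y (y + 1) = 0 := by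
  simp [phiA, V_eq23]

lemma phiA_h2 (L : ℕ) (q : ℚ) (x y : ℤ) : phiA L q 2 x y (-1) = 0 := by
  have : (-1 : ℤ) < 0 := by norm_num
  simp [phiA, V_neg3 _ _ _ this]

lemma phiA_bulk (L : ℕ) (q : ℚ) (hq : q ≠ 0) (s : Fin 3) (x y z : ℤ) (hz : 0 ≤ z) (hzy : z ≤ y)
    (hyx : y ≤ x) (hx : x + 1 < L) :
    phiA L q s x y z = (if x = 0 ∧ y = 0 ∧ z = 0 then 1 else 0)
        + ME Est q 0 s * phiA L q 0 (x - 1) y z
        + ME Est q 1 s * phiA L q 1 x (y - 1) z + ME Est q 2 s * phiA L q 2 x y (z - 1) := by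
  set a : ℚ := 1 - 1 / q with ha
  set c : ℚ := (1 - q) ^ 2 / q with hc
  have hL0 : 0 < L := by omega
  have hrec := V_rec L a c (x := x + 2) (y := y + 1) (z := z) (by omega) hL0
  rw [W_chamber L a hL0 hz (by omega) (by omega)] at hrec
  have hU := V_sub L a c (x := x + 2) (y := y + 1) (z := z) (by omega)
  have hU1 := V_sub L a c (x := x + 1) (y := y + 1) (z := z) (by omega)
  have g1 : x + 2 - 1 = x + 1 := by ring
  have g2 : y + 1 - 1 = y := by ring
  rw [g1, g2] at hrec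
  rw [g2] at hU hU1
  have hδ : (if x + 2 = 2 ∧ y + 1 = 1 ∧ z = 0 then (1 : ℚ) else 0) =
      if x = 0 ∧ y = 0 ∧ z = 0 then 1 else 0 := by
    congr 1
    apply propext; constructor <;> rintro ⟨h1, h2, h3⟩ <;> refine ⟨by omega, by omega, by omega⟩
  rw [hδ] at hrec
  have hδq : q ^ y * (if x = 0 ∧ y = 0 ∧ z = 0 then (1 : ℚ) else 0) =
      if x = 0 ∧ y = 0 ∧ z = 0 then 1 else 0 := by
    split_ifs with h
    · rw [h.2.1]; simp
    · ring
  have hqy : q ^ (y - 1) = q ^ y * q⁻¹ := by rw [zpow_sub_one₀ hq]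
  have e1 : x - 1 + 2 = x + 1 := by ring
  have e2 : y - 1 + 1 = y := by ring
  generalize hD : (if x = 0 ∧ y = 0 ∧ z = 0 then (1 : ℚ) else 0) = D at *
  generalize h000 : V L a c (x + 2) (y + 1) z = v000 at *
  generalize h100 : V L a c (x + 1) (y + 1) z = v100 at *
  generalize h010 : V L a c (x + 2) y z = v010 at *
  generalize h110 : V L a c (x + 1) y z = v110 at *
  generalize h001 : V L a c (x + 2) (y + 1) (z - 1) = v001 at *
  generalize h111 : V L a c (x + 1) y (z - 1) = v111 at *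
  have hp : q * q⁻¹ = 1 := mul_inv_cancel₀ hq
  have ha' : a = 1 - q⁻¹ := by rw [ha, one_div]
  have hc' : c = (1 - q) ^ 2 * q⁻¹ := by rw [hc, div_eq_mul_inv]
  have hs : s = 0 ∨ s = 1 ∨ s = 2 := by fin_cases s <;> simp
  have p00 : phiA L q 0 x y z = q ^ y * (v000 - a * v010) := by
    rw [hU, phiA0, ← ha, ← hc]
  have p01 : phiA L q 0 (x - 1) y z = q ^ y * (v100 - a * v110) := by
    rw [hU1, phiA0, ← ha, ← hc, e1]
  have p10 : phiA L q 1 x y z = q ^ y * (v000 + (q - 1) * v100) := by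
    rw [← h000, ← h100, phiA1, ← ha, ← hc]
  have p11 : phiA L q 1 x (y - 1) z = q ^ y * q⁻¹ * (v010 + (q - 1) * v110) := by
    rw [← h010, ← h110, ← hqy, phiA1, ← ha, ← hc, e2]
  have p20 : phiA L q 2 x y z = q ^ y * (v000 + c * v110) := by
    rw [← h000, ← h110, phiA2, ← ha, ← hc]
  have p21 : phiA L q 2 x y (z - 1) = q ^ y * (v001 + c * v111) := by
    rw [← h001, ← h111, phiA2, ← ha, ← hc]
  rcases hs with rfl | rfl | rfl
  · have m0 : ME Est q 0 0 = 1 := by simp [ME, Est]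
    have m1 : ME Est q 1 0 = 1 := by simp [ME, Est]
    have m2 : ME Est q 2 0 = 1 := by simp [ME, Est]
    rw [m0, m1, m2, p00, p01, p11, p21, ha', hc']
    rw [hc'] at hrec
    linear_combination q ^ y * hrec + hδq - q ^ y * v110 * hp
  · have m0 : ME Est q 0 1 = q := by simp [ME, Est]
    have m1 : ME Est q 1 1 = q := by simp [ME, Est]
    have m2 : ME Est q 2 1 = 1 := by simp [ME, Est]
    rw [m0, m1, m2, p10, p01, p11, p21, ha', hc']
    rw [hc'] at hrec
    linear_combination q ^ y * hrec + hδq - q ^ y * (v010 + q * v110) * hp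
  · have m0 : ME Est q 0 2 = 1 := by simp [ME, Est]
    have m1 : ME Est q 1 2 = q := by simp [ME, Est]
    have m2 : ME Est q 2 2 = 1 := by simp [ME, Est]
    rw [m0, m1, m2, p20, p01, p11, p21, ha', hc']
    rw [hc'] at hrec
    linear_combination q ^ y * hrec + hδq - q ^ y * (v010 + v110) * hp

lemma sum_reindex (n : ℕ) (g : ℕ → ℕ → ℚ) (hg : ∀ k j, n < k + j → g k j = 0) :
    ∑ k ∈ range (n + 2), ∑ j ∈ range (n + 2), g k j =
      ∑ m ∈ range (n + 1), ∑ k ∈ range (m + 1), g k (n - m) := by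
  rw [Finset.sum_comm, Finset.sum_range_succ, Finset.sum_eq_zero (s := range (n + 2))
    (f := fun k => g k (n + 1)) (fun k _ => hg _ _ (by omega)), add_zero,
    ← Finset.sum_range_reflect]
  refine Finset.sum_congr rfl fun m hm => ?_
  have hm' : m ≤ n := by have := Finset.mem_range.1 hm; omega
  have e : n + 1 - 1 - m = n - m := by omega
  rw [e]
  symm
  apply Finset.sum_subset
  · intro k hk
    have := Finset.mem_range.1 hk
    exact Finset.mem_range.2 (by omega)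
  · intro k _ hk
    apply hg
    have : ¬ k < m + 1 := fun h => hk (Finset.mem_range.2 h)
    omega

lemma f_rect (k e : ℕ) : f ((k : ℤ) + e + 2) ((k : ℤ) + e + 1) e = ff (k + e) k := by
  have h1 : ¬ ((k : ℤ) + e + 2 + (k + e + 1) + e < 3) := by omega
  have h2 : ((k : ℤ) + e + 2 + (k + e + 1) + e - 3).toNat = 3 * (k + e) - k := by omega
  have r1 : ((k : ℤ) + e + 2) = ((k + e + 2 : ℕ) : ℤ) := by push_cast; ring
  have r2 : ((k : ℤ) + e + 1) = ((k + e + 1 : ℕ) : ℤ) := by push_cast; ring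
  have r3 : k + e - k = e := by omega
  rw [f, FF, if_neg h1, h2]
  rw [r1, r2, rf_nat, rf_nat, rf_nat, ff, r3]
  have p1 : ((k + e + 2).factorial : ℚ) ≠ 0 := by positivity
  have p2 : ((k + e + 1).factorial : ℚ) ≠ 0 := by positivity
  have p3 : (e.factorial : ℚ) ≠ 0 := by positivity
  push_cast
  field_simp
  ring

lemma phiA_rect (q : ℚ) (hq : q ≠ 0) (n : ℕ) :
    phiA (n + 2) q 0 n n n =
      ∑ m ∈ range (n + 1), ∑ k ∈ range (m + 1),
        (-1) ^ k * (1 - q) ^ (2 * (n - m) + k) * q ^ (m - k) *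
          ((n + 2 * m - k).choose (n - m) : ℚ) * ff m k := by
  have h0 : phiA (n + 2) q 0 n n n = ∑ k ∈ range (n + 2), ∑ j ∈ range (n + 2),
      q ^ n * ((1 - 1 / q) ^ k * (((1 - q) ^ 2 / q) ^ j *
        (BB ((n : ℤ) + 2 + (n + 1) + (n - k)) j * f (n + 2 - j) (n + 1 - j) (n - k - j)))) := by
    simp only [phiA, if_true, U, Psi, Finset.mul_sum, zpow_natCast]
  rw [h0, sum_reindex n (fun k j => q ^ n * ((1 - 1 / q) ^ k * (((1 - q) ^ 2 / q) ^ j *
        (BB ((n : ℤ) + 2 + (n + 1) + (n - k)) j * f (n + 2 - j) (n + 1 - j) (n - k - j)))))]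
  · refine Finset.sum_congr rfl fun m hm => Finset.sum_congr rfl fun k hk => ?_
    have hm' : m ≤ n := by have := Finset.mem_range.1 hm; omega
    have hk' : k ≤ m := by have := Finset.mem_range.1 hk; omega
    obtain ⟨e, rfl⟩ := Nat.exists_eq_add_of_le hk'
    obtain ⟨d, rfl⟩ := Nat.exists_eq_add_of_le hm'
    have d1 : k + e + d - (k + e) = d := by omega
    have d2 : k + e - k = e := by omega
    have d3 : (k + e + d) + 2 * (k + e) - k = 2 * k + 3 * e + d := by omega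
    have c1 : (((k + e + d : ℕ) : ℤ)) + 2 - (d : ℕ) = (k : ℤ) + e + 2 := by push_cast; ring
    have c2 : (((k + e + d : ℕ) : ℤ)) + 1 - (d : ℕ) = (k : ℤ) + e + 1 := by push_cast; ring
    have c3 : (((k + e + d : ℕ) : ℤ)) - (k : ℕ) - (d : ℕ) = (e : ℤ) := by push_cast; ring
    have b1 : BB (((k + e + d : ℕ) : ℤ) + 2 + (((k + e + d : ℕ) : ℤ) + 1)
        + (((k + e + d : ℕ) : ℤ) - (k : ℕ))) d = ((2 * k + 3 * e + d).choose d : ℚ) := by
      rw [BB]
      congr 3
      push_cast; omega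
    rw [d1, d2, d3, c1, c2, c3, b1, f_rect]
    have q1 : (1 - 1 / q) ^ k * q ^ k = (-1) ^ k * (1 - q) ^ k := by
      rw [← mul_pow, ← mul_pow]; congr 1; field_simp; ring
    have q2 : ((1 - q) ^ 2 / q) ^ d * q ^ d = (1 - q) ^ (2 * d) := by
      rw [← mul_pow, pow_mul]; congr 1; field_simp
    calc q ^ (k + e + d) * ((1 - 1 / q) ^ k * (((1 - q) ^ 2 / q) ^ d *
          (((2 * k + 3 * e + d).choose d : ℚ) * ff (k + e) k)))
        = ((1 - 1 / q) ^ k * q ^ k) * (((1 - q) ^ 2 / q) ^ d * q ^ d) * q ^ e *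
          (((2 * k + 3 * e + d).choose d : ℚ) * ff (k + e) k) := by ring
      _ = _ := by rw [q1, q2]; ring
  · intro k j hkj
    rw [f_neg3 (by omega)]; ring

end Sul
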