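import Pool.Agent.R666.Sul.PieceB

/-!
# Piece D: the model of ascents
-/

set_option autoImplicit false

namespace Sul

open Finset

namespace PD

/-- coefficient of `t^m` in `(1-t)^(-p)` -/
def H (p : ℕ) (m : ℤ) : ℚ :=
  match p with
  | 0 => if m = 0 then 1 else 0
  | p + 1 => if m < 0 then 0 else ((m.toNat + p).choose p : ℚ)

lemma H_neg (p : ℕ) {m : ℤ} (hm : m < 0) : H p m = 0 := by
  cases p with
  | zero => simp [H, hm.ne]
  | succ p => simp [H, hm]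

lemma H_nat (p k : ℕ) : H (p + 1) (k : ℤ) = ((k + p).choose p : ℚ) := by
  simp [H]

lemma H_zero (m : ℤ) : H 0 m = if m = 0 then 1 else 0 := rfl

lemma H_rec (p : ℕ) (m : ℤ) : H (p + 1) m - H (p + 1) (m - 1) = H p m := by
  rcases lt_trichotomy m 0 with h | h | h
  · rw [H_neg _ h, H_neg _ h, H_neg _ (by omega), sub_zero]
  · subst h
    rw [H_neg (p + 1) (by norm_num : (0 : ℤ) - 1 < 0), sub_zero]
    have h1 := H_nat p 0
    rw [Nat.cast_zero] at h1
    rw [h1]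
    cases p with
    | zero => simp [H]
    | succ p =>
      have h2 := H_nat p 0
      rw [Nat.cast_zero] at h2
      rw [h2]
      simp
  · obtain ⟨k, rfl⟩ : ∃ k : ℕ, m = ((k + 1 : ℕ) : ℤ) := ⟨(m - 1).toNat, by omega⟩
    have e : ((k + 1 : ℕ) : ℤ) - 1 = (k : ℤ) := by push_cast; ring
    rw [e, H_nat, H_nat]
    cases p with
    | zero =>
      rw [H_zero, if_neg (by omega)]
      simp
    | succ p =>
      rw [H_nat, show k + 1 + (p + 1) = (k + 1 + p) + 1 by ring, Nat.choose_succ_succ' (k + 1 + p) p,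
        show k + (p + 1) = k + 1 + p by ring]
      push_cast
      ring

/-- the 3x3 determinant -/
def D (p1 p2 p3 : ℕ) (X Y Z : ℤ) : ℚ :=
  H p1 (X - 2) * (H p2 (Y - 1) * H p3 Z - H p2 Y * H p3 (Z - 1)) -
  H p1 (X - 1) * (H p2 (Y - 2) * H p3 Z - H p2 Y * H p3 (Z - 2)) +
  H p1 X * (H p2 (Y - 2) * H p3 (Z - 1) - H p2 (Y - 1) * H p3 (Z - 2))

lemma D_sub1 (p1 p2 p3 : ℕ) (X Y Z : ℤ) :
    D (p1 + 1) p2 p3 X Y Z - D (p1 + 1) p2 p3 (X - 1) Y Z = D p1 p2 p3 X Y Z := by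
  have h1 := H_rec p1 X
  have h2 := H_rec p1 (X - 1)
  have h3 := H_rec p1 (X - 2)
  have e1 : X - 1 - 2 = X - 2 - 1 := by ring
  have e2 : X - 1 - 1 = X - 2 := by ring
  rw [e2] at h2
  unfold D
  rw [e1, e2, ← h1, ← h2, ← h3]
  ring

lemma D_sub2 (p1 p2 p3 : ℕ) (X Y Z : ℤ) :
    D p1 (p2 + 1) p3 X Y Z - D p1 (p2 + 1) p3 X (Y - 1) Z = D p1 p2 p3 X Y Z := by
  have h1 := H_rec p2 Y
  have h2 := H_rec p2 (Y - 1)
  have h3 := H_rec p2 (Y - 2)
  have e1 : Y - 1 - 2 = Y - 2 - 1 := by ring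
  have e2 : Y - 1 - 1 = Y - 2 := by ring
  rw [e2] at h2
  unfold D
  rw [e1, e2, ← h1, ← h2, ← h3]
  ring

lemma D_sub3 (p1 p2 p3 : ℕ) (X Y Z : ℤ) :
    D p1 p2 (p3 + 1) X Y Z - D p1 p2 (p3 + 1) X Y (Z - 1) = D p1 p2 p3 X Y Z := by
  have h1 := H_rec p3 Z
  have h2 := H_rec p3 (Z - 1)
  have h3 := H_rec p3 (Z - 2)
  have e1 : Z - 1 - 2 = Z - 2 - 1 := by ring
  have e2 : Z - 1 - 1 = Z - 2 := by ring
  rw [e2] at h2
  unfold D
  rw [e1, e2, ← h1, ← h2, ← h3]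
  ring

/-- `g_s(J; x, y, z)` -/
def g (s : Fin 3) (x y z : ℤ) (J : ℕ) : ℚ :=
  match s with
  | 0 => D (J + 1) (J + 1) (J + 2) (x + 2) (y + 1) z
  | 1 => D (J + 1) (J + 2) (J + 2) (x + 2) (y + 1) z
  | 2 => D (J + 1) (J + 2) (J + 3) (x + 2) (y + 1) z

lemma g0 (x y z : ℤ) (J : ℕ) : g 0 x y z J = D (J + 1) (J + 1) (J + 2) (x + 2) (y + 1) z := rfl
lemma g1 (x y z : ℤ) (J : ℕ) : g 1 x y z J = D (J + 1) (J + 2) (J + 2) (x + 2) (y + 1) z := rfl
lemma g2 (x y z : ℤ) (J : ℕ) : g 2 x y z J = D (J + 1) (J + 2) (J + 3) (x + 2) (y + 1) z := rfl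

/-- the value at `J = 0` of the telescoped sums -/
lemma D012 {x y z : ℤ} (hz : 0 ≤ z) (hzy : z ≤ y) (hyx : y ≤ x) :
    D 0 1 2 (x + 2) (y + 1) z = if x = 0 ∧ y = 0 ∧ z = 0 then 1 else 0 := by
  unfold D
  have e1 : x + 2 - 2 = x := by ring
  have e2 : x + 2 - 1 = x + 1 := by ring
  rw [e1, e2, H_zero, H_zero, H_zero, if_neg (by omega : ¬ x + 1 = 0), if_neg (by omega : ¬ x + 2 = 0)]
  by_cases hx : x = 0
  · have hy : y = 0 := by omega
    have hz0 : z = 0 := by omega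
    subst hx
    subst hy
    subst hz0
    rw [if_pos rfl, if_pos ⟨rfl, rfl, rfl⟩, H_neg 2 (by norm_num : (0 : ℤ) - 1 < 0)]
    have h1 : H 1 (0 + 1 - 1) = 1 := by simp [H]
    have h2 : H 2 0 = 1 := by simp [H]
    rw [h1, h2]
    ring
  · rw [if_neg hx, if_neg (fun h => hx h.1)]
    ring

open PowerSeries in
/-- the model -/
noncomputable def phi (s : Fin 3) (x y z : ℤ) : PowerSeries ℚ :=
  (1 - X) ^ (x + y + z + 1).toNat * PowerSeries.mk (g s x y z)

open PowerSeries in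
lemma bulk0 {x y z : ℤ} (hz : 0 ≤ z) (hzy : z ≤ y) (hyx : y ≤ x) :
    (1 - X) * PowerSeries.mk (g 0 x y z) = (if x = 0 ∧ y = 0 ∧ z = 0 then 1 else 0) + PowerSeries.mk (g 0 (x - 1) y z)
      + X * PowerSeries.mk (g 1 x (y - 1) z) + X * PowerSeries.mk (g 2 x y (z - 1)) := by
  have ex : x - 1 + 2 = x + 2 - 1 := by ring
  have ey : y - 1 + 1 = y + 1 - 1 := by ring
  ext J
  rw [sub_mul, one_mul]
  cases J with
  | zero =>
    simp only [map_sub, map_add, coeff_zero_X_mul, coeff_mk, sub_zero, add_zero]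
    rw [g0, g0, ex]
    have h1 := D_sub1 0 1 2 (x + 2) (y + 1) z
    rw [D012 hz hzy hyx] at h1
    have h2 : (coeff 0) (if x = 0 ∧ y = 0 ∧ z = 0 then (1 : PowerSeries ℚ) else 0) =
        if x = 0 ∧ y = 0 ∧ z = 0 then 1 else 0 := by split_ifs <;> simp
    rw [h2]
    linear_combination h1
  | succ J =>
    have h0 : (coeff (J + 1)) (if x = 0 ∧ y = 0 ∧ z = 0 then (1 : PowerSeries ℚ) else 0) = 0 := by
      split_ifs <;> simp [coeff_one]
    simp only [map_sub, map_add, coeff_succ_X_mul, coeff_mk, h0]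
    rw [g0, g0, g0, g1, g2, ex, ey]
    have h1 := D_sub1 (J + 1) (J + 2) (J + 3) (x + 2) (y + 1) z
    have h2 := D_sub3 (J + 1) (J + 2) (J + 2) (x + 2) (y + 1) z
    have h3 := D_sub2 (J + 1) (J + 1) (J + 2) (x + 2) (y + 1) z
    linear_combination h1 + h2 + h3

open PowerSeries in
lemma bulk1 {x y z : ℤ} (hz : 0 ≤ z) (hzy : z ≤ y) (hyx : y ≤ x) :
    (1 - X) * PowerSeries.mk (g 1 x y z) = (if x = 0 ∧ y = 0 ∧ z = 0 then 1 else 0) + PowerSeries.mk (g 0 (x - 1) y z)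
      + PowerSeries.mk (g 1 x (y - 1) z) + X * PowerSeries.mk (g 2 x y (z - 1)) := by
  have ex : x - 1 + 2 = x + 2 - 1 := by ring
  have ey : y - 1 + 1 = y + 1 - 1 := by ring
  ext J
  rw [sub_mul, one_mul]
  cases J with
  | zero =>
    simp only [map_sub, map_add, coeff_zero_X_mul, coeff_mk, sub_zero, add_zero]
    rw [g0, g1, g1, ex, ey]
    have h1 := D_sub1 0 1 2 (x + 2) (y + 1) z
    have h3 := D_sub2 1 1 2 (x + 2) (y + 1) z
    rw [D012 hz hzy hyx] at h1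
    have h2 : (coeff 0) (if x = 0 ∧ y = 0 ∧ z = 0 then (1 : PowerSeries ℚ) else 0) =
        if x = 0 ∧ y = 0 ∧ z = 0 then 1 else 0 := by split_ifs <;> simp
    rw [h2]
    linear_combination h1 + h3
  | succ J =>
    have h0 : (coeff (J + 1)) (if x = 0 ∧ y = 0 ∧ z = 0 then (1 : PowerSeries ℚ) else 0) = 0 := by
      split_ifs <;> simp [coeff_one]
    simp only [map_sub, map_add, coeff_succ_X_mul, coeff_mk, h0]
    rw [g0, g1, g1, g1, g2, ex, ey]
    have h1 := D_sub2 (J + 2) (J + 2) (J + 3) (x + 2) (y + 1) z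
    have h2 := D_sub1 (J + 1) (J + 2) (J + 3) (x + 2) (y + 1) z
    have h3 := D_sub3 (J + 1) (J + 2) (J + 2) (x + 2) (y + 1) z
    linear_combination h1 + h2 + h3

open PowerSeries in
lemma bulk2 {x y z : ℤ} (hz : 0 ≤ z) (hzy : z ≤ y) (hyx : y ≤ x) :
    (1 - X) * PowerSeries.mk (g 2 x y z) = (if x = 0 ∧ y = 0 ∧ z = 0 then 1 else 0) + PowerSeries.mk (g 0 (x - 1) y z)
      + PowerSeries.mk (g 1 x (y - 1) z) + PowerSeries.mk (g 2 x y (z - 1)) := by
  have ex : x - 1 + 2 = x + 2 - 1 := by ring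
  have ey : y - 1 + 1 = y + 1 - 1 := by ring
  ext J
  rw [sub_mul, one_mul]
  cases J with
  | zero =>
    simp only [map_sub, map_add, coeff_zero_X_mul, coeff_mk, sub_zero, add_zero]
    rw [g0, g1, g2, g2, ex, ey]
    have h1 := D_sub1 0 1 2 (x + 2) (y + 1) z
    have h3 := D_sub2 1 1 2 (x + 2) (y + 1) z
    have h4 := D_sub3 1 2 2 (x + 2) (y + 1) z
    rw [D012 hz hzy hyx] at h1
    have h2 : (coeff 0) (if x = 0 ∧ y = 0 ∧ z = 0 then (1 : PowerSeries ℚ) else 0) =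
        if x = 0 ∧ y = 0 ∧ z = 0 then 1 else 0 := by split_ifs <;> simp
    rw [h2]
    linear_combination h1 + h3 + h4
  | succ J =>
    have h0 : (coeff (J + 1)) (if x = 0 ∧ y = 0 ∧ z = 0 then (1 : PowerSeries ℚ) else 0) = 0 := by
      split_ifs <;> simp [coeff_one]
    simp only [map_sub, map_add, coeff_succ_X_mul, coeff_mk, h0]
    rw [g0, g1, g2, g2, g2, ex, ey]
    have h1 := D_sub3 (J + 2) (J + 3) (J + 3) (x + 2) (y + 1) z
    have h2 := D_sub2 (J + 2) (J + 2) (J + 3) (x + 2) (y + 1) z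
    have h3 := D_sub1 (J + 1) (J + 2) (J + 3) (x + 2) (y + 1) z
    linear_combination h1 + h2 + h3

open PowerSeries in
lemma phi_mul {s : Fin 3} {x y z : ℤ} {m : ℕ} (hm : (m : ℤ) = x + y + z + 1) :
    phi s x y z = (1 - X) ^ m * PowerSeries.mk (g s x y z) := by
  rw [phi, ← hm, Int.toNat_natCast]

lemma wall0 (x z : ℤ) : phi 0 x (x + 1) z = 0 := by
  have : g 0 x (x + 1) z = 0 := by
    funext J
    rw [g0]
    have e : x + 1 + 1 = x + 2 := by ring
    rw [e]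
    unfold D
    simp only [Pi.zero_apply]
    ring
  rw [phi, this]
  have h : PowerSeries.mk (0 : ℕ → ℚ) = 0 := by ext n; simp
  rw [h, mul_zero]

lemma wall1 (x y : ℤ) : phi 1 x y (y + 1) = 0 := by
  have : g 1 x y (y + 1) = 0 := by
    funext J
    rw [g1]
    unfold D
    simp only [Pi.zero_apply]
    ring
  rw [phi, this]
  have h : PowerSeries.mk (0 : ℕ → ℚ) = 0 := by ext n; simp
  rw [h, mul_zero]

lemma wall2 (x y : ℤ) : phi 2 x y (-1) = 0 := by
  have : g 2 x y (-1) = 0 := by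
    funext J
    rw [g2]
    unfold D
    rw [H_neg (J + 3) (by norm_num : (-1 : ℤ) < 0), H_neg (J + 3) (by norm_num : (-1 : ℤ) - 1 < 0),
      H_neg (J + 3) (by norm_num : (-1 : ℤ) - 2 < 0)]
    simp only [Pi.zero_apply]
    ring
  rw [phi, this]
  have h : PowerSeries.mk (0 : ℕ → ℚ) = 0 := by ext n; simp
  rw [h, mul_zero]

lemma ch_rec (m J : ℕ) : (((m + 1 + J).choose J : ℕ) : ℚ) =
    (((m + J).choose J : ℕ) : ℚ) * ((m : ℚ) + 1 + J) / ((m : ℚ) + 1) := by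
  have h := Nat.add_one_mul_choose_eq (m + J) m
  have h1 : (m + J).choose m = (m + J).choose J := by
    rw [← Nat.choose_symm_add (a := m) (b := J)]
  have h2 : (m + J + 1).choose (m + 1) = (m + 1 + J).choose J := by
    rw [show m + J + 1 = (m + 1) + J by ring, ← Nat.choose_symm_add (a := m + 1) (b := J)]
  rw [h1, h2] at h
  have h3 : ((m : ℚ) + J + 1) * (((m + J).choose J : ℕ) : ℚ) =
      (((m + 1 + J).choose J : ℕ) : ℚ) * ((m : ℚ) + 1) := by exact_mod_cast h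
  have hm : (m : ℚ) + 1 ≠ 0 := by positivity
  rw [eq_div_iff hm, ← h3]
  ring

lemma H_m1 (J k : ℕ) : H (J + 2) (((k + 1 : ℕ) : ℤ) - 2) =
    (((k + J + 1).choose (J + 1) : ℕ) : ℚ) * k / ((k : ℚ) + J + 1) := by
  cases k with
  | zero =>
    rw [H_neg _ (by norm_num)]
    simp
  | succ k =>
    have e : (((k + 1 + 1 : ℕ) : ℤ) - 2) = (k : ℤ) := by push_cast; ring
    rw [e, H_nat (J + 1) k, show k + 1 + J + 1 = k + 1 + (J + 1) by ring, ch_rec k (J + 1)]
    have h1 : (k : ℚ) + 1 ≠ 0 := by positivity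
    have h2 : (k : ℚ) + 1 + J + 1 ≠ 0 := by positivity
    push_cast
    field_simp
    ring

/-- the end value -/
lemma endval (n J : ℕ) (hn : 1 ≤ n) :
    g 0 n n n J = (2 * J * (n + J).choose n ^ 2 * (n + J + 1).choose n : ℚ) /
          ((J + n) * (n + 1) ^ 2 * (n + 2)) := by
  obtain ⟨k, rfl⟩ : ∃ k, n = k + 1 := ⟨n - 1, by omega⟩
  rw [g0]
  unfold D
  have a1 : (((k + 1 : ℕ) : ℤ) + 2 - 2) = ((k + 1 : ℕ) : ℤ) := by ring
  have a2 : (((k + 1 : ℕ) : ℤ) + 2 - 1) = ((k + 2 : ℕ) : ℤ) := by push_cast; ring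
  have a3 : (((k + 1 : ℕ) : ℤ) + 2) = ((k + 3 : ℕ) : ℤ) := by push_cast; ring
  have b1 : (((k + 1 : ℕ) : ℤ) + 1 - 2) = ((k : ℕ) : ℤ) := by push_cast; ring
  have b2 : (((k + 1 : ℕ) : ℤ) + 1 - 1) = ((k + 1 : ℕ) : ℤ) := by push_cast; ring
  have b3 : (((k + 1 : ℕ) : ℤ) + 1) = ((k + 2 : ℕ) : ℤ) := by push_cast; ring
  have c2 : (((k + 1 : ℕ) : ℤ) - 1) = ((k : ℕ) : ℤ) := by push_cast; ring
  rw [a1, a2, a3, b1, b2, b3, c2, H_m1]
  rw [H_nat J (k + 1), H_nat J (k + 2), H_nat J (k + 3), H_nat J k, H_nat (J + 1) (k + 1),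
    H_nat (J + 1) k]
  have r1 : (((k + 1 + J).choose (k + 1) : ℕ) : ℚ) = (((k + 1 + J).choose J : ℕ) : ℚ) := by
    rw [← Nat.choose_symm_add (a := k + 1) (b := J)]
  have r2 : (((k + 1 + J + 1).choose (k + 1) : ℕ) : ℚ) =
      (((k + 1 + (J + 1)).choose (J + 1) : ℕ) : ℚ) := by
    rw [show k + 1 + J + 1 = k + 1 + (J + 1) by ring, ← Nat.choose_symm_add (a := k + 1) (b := J + 1)]
  rw [r1, r2, show k + J + 1 = k + (J + 1) by ring]
  have e1 := ch_rec k J
  have e2 := ch_rec (k + 1) J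
  have e3 := ch_rec (k + 2) J
  have e4 := ch_rec k (J + 1)
  have e5 : (((k + (J + 1)).choose (J + 1) : ℕ) : ℚ) =
      (((k + J).choose J : ℕ) : ℚ) * ((k : ℚ) + J + 1) / ((J : ℚ) + 1) := by
    have h := Nat.add_one_mul_choose_eq (k + J) J
    have h3 : ((k : ℚ) + J + 1) * (((k + J).choose J : ℕ) : ℚ) =
      (((k + J + 1).choose (J + 1) : ℕ) : ℚ) * ((J : ℚ) + 1) := by exact_mod_cast h
    have hm : (J : ℚ) + 1 ≠ 0 := by positivity
    rw [eq_div_iff hm, show k + (J + 1) = k + J + 1 by ring, ← h3]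
    ring
  rw [show k + 3 + J = k + 2 + 1 + J by ring, e3, show k + 2 + J = k + 1 + 1 + J by ring, e2, e1, e4, e5]
  generalize (((k + J).choose J : ℕ) : ℚ) = a
  push_cast
  have n1 : (k : ℚ) + 1 ≠ 0 := by positivity
  have n2 : (k : ℚ) + 2 ≠ 0 := by positivity
  have n3 : (k : ℚ) + 3 ≠ 0 := by positivity
  have n4 : (J : ℚ) + 1 ≠ 0 := by positivity
  have n5 : (k : ℚ) + J + 1 ≠ 0 := by positivity
  have n6 : (J : ℚ) + (k + 1) ≠ 0 := by positivity
  have n7 : (k : ℚ) + 1 + 1 ≠ 0 := by positivity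
  have n8 : (k : ℚ) + 2 + 1 ≠ 0 := by positivity
  have n9 : (k : ℚ) + 1 + 2 ≠ 0 := by positivity
  field_simp
  ring

end PD

open PD in
theorem modelB (n : ℕ) (hn : 1 ≤ n) :
    Z (ME Easc (PowerSeries.X : PowerSeries ℚ)) (3 * n) 0 n n n =
      (1 - PowerSeries.X) ^ (3 * n + 1) * PowerSeries.mk fun J : ℕ =>
        (2 * J * (n + J).choose n ^ 2 * (n + J + 1).choose n : ℚ) /
          ((J + n) * (n + 1) ^ 2 * (n + 2)) := by
  rw [Z_eq (ME Easc (PowerSeries.X : PowerSeries ℚ)) phi n ?_ wall0 wall1 wall2 (3 * n) 0 n n n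
    (by positivity) le_rfl le_rfl le_rfl (by push_cast; ring)]
  · rw [phi_mul (m := 3 * n + 1) (by push_cast; ring)]
    congr 1
    ext J
    rw [PowerSeries.coeff_mk, PowerSeries.coeff_mk, endval n J hn]
  · intro s x y z hz hzy hyx _
    obtain ⟨m, hm⟩ : ∃ m : ℕ, (m : ℤ) = x + y + z := ⟨(x + y + z).toNat, by omega⟩
    rw [phi_mul (s := s) (m := m + 1) (by push_cast; rw [hm]),
      phi_mul (s := 0) (m := m) (by rw [hm]; ring), phi_mul (s := 1) (m := m) (by rw [hm]; ring),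
      phi_mul (s := 2) (m := m) (by rw [hm]; ring)]
    have hc : (if x = 0 ∧ y = 0 ∧ z = 0 then (1 : PowerSeries ℚ) else 0) =
        (1 - PowerSeries.X) ^ m * (if x = 0 ∧ y = 0 ∧ z = 0 then (1 : PowerSeries ℚ) else 0) := by
      split_ifs with h
      · obtain ⟨rfl, rfl, rfl⟩ := h
        have : m = 0 := by omega
        subst this
        simp
      · simp
    rw [hc, pow_succ]
    have hME : ∀ r t : Fin 3, ME Easc (PowerSeries.X : PowerSeries ℚ) r t =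
        if t < r then PowerSeries.X else 1 := fun r t => rfl
    rw [hME, hME, hME]
    fin_cases s
    · have := bulk0 hz hzy hyx
      simp only [Fin.zero_eta, Fin.isValue, lt_self_iff_false, if_false, Fin.zero_lt_one,
        if_true, show (0 : Fin 3) < 2 from by decide]
      linear_combination (1 - PowerSeries.X) ^ m * this
    · have := bulk1 hz hzy hyx
      simp only [Fin.mk_one, Fin.isValue, show ¬ (1 : Fin 3) < 0 from by decide, if_false,
        lt_self_iff_false, show (1 : Fin 3) < 2 from by decide, if_true]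
      linear_combination (1 - PowerSeries.X) ^ m * this
    · have := bulk2 hz hzy hyx
      simp only [Fin.reduceFinMk, Fin.isValue, show ¬ (2 : Fin 3) < 0 from by decide, if_false,
        show ¬ (2 : Fin 3) < 1 from by decide, lt_self_iff_false]
      linear_combination (1 - PowerSeries.X) ^ m * this

end Sul
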