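import Pool.Agent.R666.Sul.Defs

set_option autoImplicit false

/-! Piece E: the hypergeometric identities. -/

namespace Sul

open Finset

namespace PE

lemma asc (J n : ℕ) :
    ((J + n).factorial : ℚ) = J.factorial * ∏ i ∈ range n, ((J : ℚ) + 1 + i) := by
  induction n with
  | zero => simp
  | succ n ih =>
    rw [← Nat.add_assoc, Nat.factorial_succ, prod_range_succ]
    push_cast
    rw [ih]
    ring

lemma prod_three (m : ℕ) : ∏ i ∈ range m, (((0 : ℕ) : ℚ) - 3 - i) =
    (-1) ^ m * ((m + 1) * (m + 2)) * m.factorial / 2 := by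
  induction m with
  | zero => simp
  | succ m ih =>
    rw [prod_range_succ, ih, Nat.factorial_succ]
    push_cast
    ring

/-- The inner sum. -/
def uu (m J : ℕ) : ℚ :=
  ∑ k ∈ range (m + 1), (-1) ^ k * (((k : ℚ) + 1) * (k + 2)) * (J.choose (m - k) : ℚ)

lemma uu_succ (m J : ℕ) : uu (m + 1) (J + 1) = uu (m + 1) J + uu m J := by
  unfold uu
  rw [sum_range_succ _ (m + 1), sum_range_succ (fun k => (-1 : ℚ) ^ k *
    (((k : ℚ) + 1) * (k + 2)) * (J.choose (m + 1 - k) : ℚ)) (m + 1)]
  have h1 : ∑ k ∈ range (m + 1), (-1 : ℚ) ^ k * (((k : ℚ) + 1) * (k + 2)) *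
      ((J + 1).choose (m + 1 - k) : ℚ) =
      ∑ k ∈ range (m + 1), (-1 : ℚ) ^ k * (((k : ℚ) + 1) * (k + 2)) * (J.choose (m + 1 - k) : ℚ) +
      ∑ k ∈ range (m + 1), (-1 : ℚ) ^ k * (((k : ℚ) + 1) * (k + 2)) * (J.choose (m - k) : ℚ) := by
    rw [← sum_add_distrib]
    refine sum_congr rfl fun k hk => ?_
    have hk' : m + 1 - k = (m - k) + 1 := by
      have := mem_range.1 hk
      omega
    rw [hk', Nat.choose_succ_succ]
    push_cast
    ring
  rw [h1]
  simp
  ring

lemma uu_eq (J : ℕ) : ∀ m : ℕ,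
    uu m J = 2 * (∏ i ∈ range m, ((J : ℚ) - 3 - i)) / m.factorial := by
  induction J with
  | zero =>
    intro m
    have h1 : uu m 0 = (-1) ^ m * (((m : ℚ) + 1) * (m + 2)) := by
      unfold uu
      rw [sum_eq_single m]
      · simp
      · intro k hk hkm
        have : m - k = (m - k - 1) + 1 := by
          have := mem_range.1 hk
          omega
        rw [this, Nat.choose_zero_succ]
        simp
      · intro h
        simp at h
    have h2 : (m.factorial : ℚ) ≠ 0 := by exact_mod_cast m.factorial_ne_zero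
    rw [h1, prod_three]
    field_simp
  | succ J ih =>
    intro m
    cases m with
    | zero => simp [uu]
    | succ m =>
      have h2 : (m.factorial : ℚ) ≠ 0 := by exact_mod_cast m.factorial_ne_zero
      have h3 : ((m : ℚ) + 1) ≠ 0 := by positivity
      rw [uu_succ, ih, ih, prod_range_succ, prod_range_succ', Nat.factorial_succ]
      have h4 : ∏ i ∈ range m, (((J + 1 : ℕ) : ℚ) - 3 - ((i + 1 : ℕ) : ℚ)) =
          ∏ i ∈ range m, ((J : ℚ) - 3 - i) := by
        refine prod_congr rfl fun i _ => ?_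
        push_cast
        ring
      rw [h4]
      push_cast
      field_simp
      ring

/-- The summand. -/
def tt (x : ℚ) (n m : ℕ) : ℚ :=
  (∏ i ∈ range m, (x + n + 1 + i)) * (∏ i ∈ range m, (x - 3 - i)) /
    (m.factorial * (n - m).factorial * (m + 1).factorial * (m + 2).factorial)

lemma part (x : ℚ) (n M : ℕ) : M ≤ n →
    ∑ m ∈ range (M + 1), (((n : ℚ) + 1) * (n + 2) * (n + 3) * tt x (n + 1) m -
      (x + n) * (x + n - 1) * tt x n m) =
    -(x + 2 * n + 2) * (∏ i ∈ range M, (x + n + 2 + i)) * (∏ i ∈ range (M + 1), (x - 3 - i)) /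
      (M.factorial * (M + 1).factorial * (M + 2).factorial * (n - M).factorial) := by
  induction M with
  | zero =>
    intro _
    have h2 : (n.factorial : ℚ) ≠ 0 := by exact_mod_cast n.factorial_ne_zero
    have h3 : ((n : ℚ) + 1) ≠ 0 := by positivity
    simp only [tt, zero_add, sum_range_one, prod_range_zero, prod_range_one, Nat.sub_zero,
      Nat.factorial_zero, Nat.factorial_succ]
    push_cast
    field_simp
    ring
  | succ M ih =>
    intro hM
    obtain ⟨d, rfl⟩ : ∃ d, n = M + 1 + d := ⟨n - (M + 1), by omega⟩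
    rw [sum_range_succ, ih (by omega)]
    have e1 : M + 1 + d - M = d + 1 := by omega
    have e2 : M + 1 + d - (M + 1) = d := by omega
    have e3 : M + 1 + d + 1 - (M + 1) = d + 1 := by omega
    have hd : (d.factorial : ℚ) ≠ 0 := by exact_mod_cast d.factorial_ne_zero
    have hm : (M.factorial : ℚ) ≠ 0 := by exact_mod_cast M.factorial_ne_zero
    have h1 : ((d : ℚ) + 1) ≠ 0 := by positivity
    have h2 : ((M : ℚ) + 1) ≠ 0 := by positivity
    have h3 : ((M : ℚ) + 1 + 1) ≠ 0 := by positivity
    have h4 : ((M : ℚ) + 1 + 1 + 1) ≠ 0 := by positivity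
    have p1 : ∏ i ∈ range (M + 1), (x + ((M + 1 + d + 1 : ℕ) : ℚ) + 1 + i) =
        (∏ i ∈ range M, (x + ((M + 1 + d : ℕ) : ℚ) + 2 + i)) *
          (x + ((M + 1 + d : ℕ) : ℚ) + 2 + M) := by
      rw [prod_range_succ]
      congr 1
      · refine prod_congr rfl fun i _ => ?_
        push_cast
        ring
      · push_cast
        ring
    have p2 : ∏ i ∈ range (M + 1), (x + ((M + 1 + d : ℕ) : ℚ) + 1 + i) =
        (∏ i ∈ range M, (x + ((M + 1 + d : ℕ) : ℚ) + 2 + i)) *
          (x + ((M + 1 + d : ℕ) : ℚ) + 1) := by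
      rw [prod_range_succ']
      congr 1
      · refine prod_congr rfl fun i _ => ?_
        push_cast
        ring
      · push_cast
        ring
    rw [tt, tt, p1, p2, e1, e2, e3, prod_range_succ (fun i : ℕ => x + ((M + 1 + d : ℕ) : ℚ) + 2 + i),
      prod_range_succ (fun i : ℕ => x - 3 - (i : ℚ)) (M + 1)]
    generalize (∏ i ∈ range M, (x + ((M + 1 + d : ℕ) : ℚ) + 2 + i)) = A
    generalize (∏ i ∈ range (M + 1), (x - 3 - (i : ℚ))) = B
    simp only [Nat.factorial_succ]
    push_cast
    field_simp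
    ring

lemma sum_tt (x : ℚ) (n : ℕ) : ∑ m ∈ range (n + 1), tt x n m =
    (∏ i ∈ range n, (x + i)) * (∏ i ∈ range n, (x - 1 + i)) /
      (n.factorial * (n + 1).factorial * (n + 2).factorial) := by
  induction n with
  | zero => simp [tt, Nat.factorial]; norm_num
  | succ n ih =>
    have hn : (n.factorial : ℚ) ≠ 0 := by exact_mod_cast n.factorial_ne_zero
    have h2 : ((n : ℚ) + 1) ≠ 0 := by positivity
    have h3 : ((n : ℚ) + 2) ≠ 0 := by positivity
    have h4 : ((n : ℚ) + 3) ≠ 0 := by positivity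
    have h3' : ((n : ℚ) + 1 + 1) ≠ 0 := by positivity
    have h4' : ((n : ℚ) + 1 + 1 + 1) ≠ 0 := by positivity
    have hp := part x n n le_rfl
    rw [sum_sub_distrib, ← mul_sum, ← mul_sum, ih, Nat.sub_self] at hp
    have hlast : ((n : ℚ) + 1) * (n + 2) * (n + 3) * tt x (n + 1) (n + 1) =
        (x + 2 * n + 2) * (∏ i ∈ range n, (x + n + 2 + i)) *
          (∏ i ∈ range (n + 1), (x - 3 - i)) /
          (n.factorial * (n + 1).factorial * (n + 2).factorial * (0 : ℕ).factorial) := by
      have p1 : ∏ i ∈ range (n + 1), (x + ((n + 1 : ℕ) : ℚ) + 1 + i) =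
          (∏ i ∈ range n, (x + n + 2 + i)) * (x + 2 * n + 2) := by
        rw [prod_range_succ]
        congr 1
        · refine prod_congr rfl fun i _ => ?_
          push_cast
          ring
        · push_cast
          ring
      rw [tt, p1, Nat.sub_self]
      generalize (∏ i ∈ range n, (x + n + 2 + i)) = A
      generalize (∏ i ∈ range (n + 1), (x - 3 - (i : ℚ))) = B
      simp only [Nat.factorial_succ, Nat.factorial_zero]
      push_cast
      field_simp
      ring
    have hsum : ((n : ℚ) + 1) * (n + 2) * (n + 3) * ∑ m ∈ range (n + 1 + 1), tt x (n + 1) m =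
        (x + n) * (x + n - 1) * ((∏ i ∈ range n, (x + i)) * (∏ i ∈ range n, (x - 1 + i)) /
      (n.factorial * (n + 1).factorial * (n + 2).factorial)) := by
      rw [sum_range_succ, mul_add, hlast]
      have := hp
      linear_combination this
    have h5 : ((n : ℚ) + 1) * (n + 2) * (n + 3) ≠ 0 := by positivity
    apply mul_left_cancel₀ h5
    rw [hsum, prod_range_succ, prod_range_succ]
    generalize (∏ i ∈ range n, (x + (i : ℚ))) = A
    generalize (∏ i ∈ range n, (x - 1 + (i : ℚ))) = B
    simp only [Nat.factorial_succ]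
    push_cast
    field_simp
    ring

lemma e1 (J n m k : ℕ) (hk : k ≤ m) (hm : m ≤ n) :
    (J + n + m).choose (n + 2 * m - k) * (n + 2 * m - k).choose (n - m) =
      (J + n + m).choose (n - m) * (J + 2 * m).choose (3 * m - k) := by
  rw [Nat.choose_mul (by omega)]
  congr 2 <;> omega

lemma e2 (J m k : ℕ) (hk : k ≤ m) :
    ((J + 2 * m).choose (3 * m - k) : ℚ) * ff m k =
      (J + 2 * m).factorial / ((m + 2).factorial * (m + 1).factorial * J.factorial) *
        ((((k : ℚ) + 1) * (k + 2)) * (J.choose (m - k) : ℚ)) := by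
  have f1 : ((m + 2).factorial : ℚ) ≠ 0 := by exact_mod_cast Nat.factorial_ne_zero _
  have f2 : ((m + 1).factorial : ℚ) ≠ 0 := by exact_mod_cast Nat.factorial_ne_zero _
  have f3 : (J.factorial : ℚ) ≠ 0 := by exact_mod_cast Nat.factorial_ne_zero _
  have f4 : ((m - k).factorial : ℚ) ≠ 0 := by exact_mod_cast Nat.factorial_ne_zero _
  have key : (J + 2 * m).choose (3 * m - k) * (3 * m - k).factorial * J.factorial =
      (J + 2 * m).factorial * (J.choose (m - k) * (m - k).factorial) := by
    by_cases h : m - k ≤ J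
    · have h1 := Nat.choose_mul_factorial_mul_factorial (by omega : 3 * m - k ≤ J + 2 * m)
      have h2 := Nat.choose_mul_factorial_mul_factorial h
      have h3 : J + 2 * m - (3 * m - k) = J - (m - k) := by omega
      rw [h3] at h1
      rw [← h1, ← h2]
      ring
    · rw [Nat.choose_eq_zero_of_lt (by omega : J < m - k),
        Nat.choose_eq_zero_of_lt (by omega : J + 2 * m < 3 * m - k)]
      simp
  have key' : ((J + 2 * m).choose (3 * m - k) : ℚ) * (3 * m - k).factorial * J.factorial =
      (J + 2 * m).factorial * (J.choose (m - k) * (m - k).factorial) := by exact_mod_cast key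
  rw [ff]
  push_cast
  rw [← mul_div_assoc, div_mul_eq_mul_div, div_eq_div_iff (by positivity) (by positivity)]
  linear_combination (((k : ℚ) + 1) * (k + 2)) * ((m + 2).factorial * (m + 1).factorial) * key'

lemma e4 (J n m : ℕ) (hm : m ≤ n) :
    ∑ k ∈ range (m + 1), (-1 : ℚ) ^ k * ((J + n + m).choose (n + 2 * m - k) : ℚ) *
      ((n + 2 * m - k).choose (n - m) : ℚ) * ff m k =
    2 * ((J + n).factorial / J.factorial) * tt J n m := by
  have s1 : ∑ k ∈ range (m + 1), (-1 : ℚ) ^ k * ((J + n + m).choose (n + 2 * m - k) : ℚ) *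
      ((n + 2 * m - k).choose (n - m) : ℚ) * ff m k =
      ((J + n + m).choose (n - m) : ℚ) *
        ((J + 2 * m).factorial / ((m + 2).factorial * (m + 1).factorial * J.factorial)) *
          uu m J := by
    rw [uu, mul_sum]
    refine sum_congr rfl fun k hk => ?_
    have hk' : k ≤ m := by
      have := mem_range.1 hk
      omega
    have h1 : ((J + n + m).choose (n + 2 * m - k) : ℚ) * ((n + 2 * m - k).choose (n - m) : ℚ) =
      ((J + n + m).choose (n - m) : ℚ) * ((J + 2 * m).choose (3 * m - k) : ℚ) := by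
      exact_mod_cast e1 J n m k hk' hm
    have h2 := e2 J m k hk'
    linear_combination ((-1 : ℚ) ^ k * ff m k) * h1 +
      ((-1 : ℚ) ^ k * ((J + n + m).choose (n - m) : ℚ)) * h2
  rw [s1, uu_eq, tt]
  have f0 : (m.factorial : ℚ) ≠ 0 := by exact_mod_cast Nat.factorial_ne_zero _
  have f1 : ((m + 2).factorial : ℚ) ≠ 0 := by exact_mod_cast Nat.factorial_ne_zero _
  have f2 : ((m + 1).factorial : ℚ) ≠ 0 := by exact_mod_cast Nat.factorial_ne_zero _
  have f3 : (J.factorial : ℚ) ≠ 0 := by exact_mod_cast Nat.factorial_ne_zero _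
  have f4 : ((n - m).factorial : ℚ) ≠ 0 := by exact_mod_cast Nat.factorial_ne_zero _
  have key : (J + n + m).choose (n - m) * (n - m).factorial * (J + 2 * m).factorial =
      (J + n + m).factorial := by
    have h1 := Nat.choose_mul_factorial_mul_factorial (by omega : n - m ≤ J + n + m)
    have h3 : J + n + m - (n - m) = J + 2 * m := by omega
    rw [h3] at h1
    exact h1
  have key' : ((J + n + m).choose (n - m) : ℚ) * (n - m).factorial * (J + 2 * m).factorial =
      (J + n).factorial * ∏ i ∈ range m, ((J : ℚ) + n + 1 + i) := by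
    have := asc (J + n) m
    rw [← key] at this
    push_cast at this
    exact this
  generalize (∏ i ∈ range m, ((J : ℚ) + n + 1 + i)) = A at *
  generalize (∏ i ∈ range m, ((J : ℚ) - 3 - i)) = B at *
  field_simp
  linear_combination B * key'

end PE

open PE in
theorem coeff_identity (n J : ℕ) :
    ∑ m ∈ range (n + 1), ∑ k ∈ range (m + 1),
        (-1 : ℚ) ^ k * ((J + n + m).choose (n + 2 * m - k) : ℚ) *
          ((n + 2 * m - k).choose (n - m) : ℚ) * ff m k
      = 2 * (∏ i ∈ range n, ((J : ℚ) + 1 + i)) * (∏ i ∈ range n, ((J : ℚ) + i)) *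
          (∏ i ∈ range n, ((J : ℚ) - 1 + i)) /
          ((n.factorial * (n + 1).factorial * (n + 2).factorial : ℕ) : ℚ) := by
  have h1 : ∑ m ∈ range (n + 1), ∑ k ∈ range (m + 1),
        (-1 : ℚ) ^ k * ((J + n + m).choose (n + 2 * m - k) : ℚ) *
          ((n + 2 * m - k).choose (n - m) : ℚ) * ff m k =
      ∑ m ∈ range (n + 1), 2 * ((J + n).factorial / J.factorial) * tt J n m :=
    sum_congr rfl fun m hm => e4 J n m (by have := mem_range.1 hm; omega)
  rw [h1, ← mul_sum, sum_tt, asc J n]
  have f3 : (J.factorial : ℚ) ≠ 0 := by exact_mod_cast Nat.factorial_ne_zero _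
  rw [mul_div_cancel_left₀ _ f3]
  push_cast
  ring

end Sul
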