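import Pool.Agent.R666.Sul.PieceA
import Pool.Agent.R666.Sul.PieceB
import Pool.Agent.R666.Sul.PieceC
import Pool.Agent.R666.Sul.PieceD
import Pool.Agent.R666.Sul.PieceE

namespace Sul

open Finset

theorem modelA' (q : ℚ) (hq : q ≠ 0) (n : ℕ) :
    Z (ME Est q) (3 * n) 0 n n n =
      ∑ m ∈ range (n + 1), ∑ k ∈ range (m + 1),
        (-1) ^ k * (1 - q) ^ (2 * (n - m) + k) * q ^ (m - k) *
          ((n + 2 * m - k).choose (n - m) : ℚ) * ff m k := by
  rw [← phiA_rect q hq n]
  exact Z_eq (ME Est q) (phiA (n + 2) q) n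
    (fun s x y z hz hzy hyx hx => phiA_bulk (n + 2) q hq s x y z hz hzy hyx
      (by push_cast; omega)) (phiA_h0 _ q) (phiA_h1 _ q) (phiA_h2 _ q) (3 * n) 0 n n n
    (by positivity) le_rfl le_rfl le_rfl (by push_cast; ring)

section gf

open Polynomial

/-- The right-hand side of `modelA` as a polynomial. -/
noncomputable def PA (n : ℕ) : Polynomial ℚ :=
  ∑ m ∈ range (n + 1), ∑ k ∈ range (m + 1),
    C ((-1) ^ k * ((n + 2 * m - k).choose (n - m) : ℚ) * ff m k) *
      ((1 - X) ^ (2 * (n - m) + k) * X ^ (m - k))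

theorem gfA (n : ℕ) (hn : 1 ≤ n) [Fintype (SYT n)] :
    (∑ T : SYT n, (X : Polynomial ℚ) ^ stat Est T) = PA n := by
  apply Polynomial.eq_of_infinite_eval_eq
  apply Set.Infinite.mono _ (Set.Finite.infinite_compl (Set.finite_singleton (0 : ℚ)))
  intro q hq
  have hq : q ≠ 0 := by simpa using hq
  have h1 := modelA' q hq n
  have h2 := Z_rect Est q hn (0 : Fin 3)
  have m2 : ME Est q 2 0 = 1 := by simp [ME, Est]
  rw [m2, mul_one] at h2
  rw [h2] at h1
  simp only [Set.mem_ofPred_eq, PA, eval_finsetSum, eval_pow, eval_X, eval_mul, eval_C, eval_sub,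
    eval_one]
  rw [h1]
  refine Finset.sum_congr rfl fun m _ => Finset.sum_congr rfl fun k _ => ?_
  ring

end gf

section ps

open PowerSeries

/-- `(1-X)^{-(d+1)}`. -/
noncomputable def II (d : ℕ) : PowerSeries ℚ := PowerSeries.mk fun J => ((d + J).choose d : ℚ)

lemma II_mul (d : ℕ) : II d * (1 - X) ^ (d + 1) = 1 :=
  PowerSeries.mk_add_choose_mul_one_sub_pow_eq_one ℚ d

lemma pow_mul_II (a b : ℕ) : (1 - X) ^ a * II (a + b) = II b := by
  calc (1 - X) ^ a * II (a + b) = (II b * (1 - X) ^ (b + 1)) * ((1 - X) ^ a * II (a + b)) := by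
        rw [II_mul, one_mul]
    _ = II b * (II (a + b) * (1 - X) ^ (a + b + 1)) := by ring
    _ = II b := by rw [II_mul, mul_one]

lemma coeff_term (n m k J : ℕ) (hm : m ≤ n) (hk : k ≤ m) :
    coeff J ((1 - X) ^ (2 * (n - m) + k) * X ^ (m - k) * II (3 * n)) =
      ((J + n + m).choose (n + 2 * m - k) : ℚ) := by
  have e : 3 * n = (2 * (n - m) + k) + (n + 2 * m - k) := by omega
  have : (1 - X) ^ (2 * (n - m) + k) * X ^ (m - k) * II (3 * n)
      = (X : PowerSeries ℚ) ^ (m - k) * II (n + 2 * m - k) := by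
    rw [← pow_mul_II (2 * (n - m) + k) (n + 2 * m - k), ← e]; ring
  rw [this, PowerSeries.coeff_X_pow_mul']
  split_ifs with h
  · rw [II, PowerSeries.coeff_mk]
    congr 2; omega
  · rw [Nat.choose_eq_zero_of_lt (by omega)]; simp

lemma coeff_PA (n J : ℕ) :
    coeff J ((PA n : PowerSeries ℚ) * II (3 * n)) =
      ∑ m ∈ range (n + 1), ∑ k ∈ range (m + 1),
        (-1 : ℚ) ^ k * ((J + n + m).choose (n + 2 * m - k) : ℚ) *
          ((n + 2 * m - k).choose (n - m) : ℚ) * ff m k := by
  have h : ((PA n : Polynomial ℚ) : PowerSeries ℚ) = ∑ m ∈ range (n + 1), ∑ k ∈ range (m + 1),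
      C ((-1) ^ k * ((n + 2 * m - k).choose (n - m) : ℚ) * ff m k) *
      ((1 - X) ^ (2 * (n - m) + k) * X ^ (m - k)) := by
    have : ∀ p : Polynomial ℚ, (p : PowerSeries ℚ) = Polynomial.coeToPowerSeries.ringHom p :=
      fun p => rfl
    rw [PA, this]
    simp only [map_sum, map_mul, map_pow, map_sub, map_one,
      Polynomial.coeToPowerSeries.ringHom_apply, Polynomial.coe_C, Polynomial.coe_X]
  rw [h]
  simp only [Finset.sum_mul, map_sum]
  refine Finset.sum_congr rfl fun m hm => Finset.sum_congr rfl fun k hk => ?_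
  rw [mul_assoc, PowerSeries.coeff_C_mul, coeff_term n m k J
    (by have := Finset.mem_range.1 hm; omega) (by have := Finset.mem_range.1 hk; omega)]
  ring

lemma prod_asc (n J : ℕ) : ∏ i ∈ range n, ((J : ℚ) + 1 + i) = n.factorial * (n + J).choose n := by
  induction n with
  | zero => simp
  | succ n ih =>
    rw [Finset.prod_range_succ, ih]
    have h1 : (n + 1 + J).choose (n + 1) * (n + 1) = (n + J + 1) * (n + J).choose n := by
      have := Nat.add_one_mul_choose_eq (n + J) n
      have e : n + 1 + J = n + J + 1 := by ring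
      rw [e]; linarith
    have h2 : (((n + 1 + J).choose (n + 1) : ℕ) : ℚ) * (n + 1) =
        (n + J + 1) * ((n + J).choose n : ℕ) := by exact_mod_cast h1
    rw [Nat.factorial_succ]
    push_cast
    linear_combination -(n.factorial : ℚ) * h2

lemma prod_shift (n J : ℕ) :
    (∏ i ∈ range n, ((J : ℚ) + i)) * (J + n) = J * ∏ i ∈ range n, ((J : ℚ) + 1 + i) := by
  have h1 := Finset.prod_range_succ (fun i : ℕ => (J : ℚ) + i) n
  have h2 := Finset.prod_range_succ' (fun i : ℕ => (J : ℚ) + i) n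
  rw [h1] at h2
  rw [h2]
  have : ∀ i : ℕ, (J : ℚ) + (i + 1 : ℕ) = J + 1 + i := fun i => by push_cast; ring
  simp only [this]
  push_cast; ring

theorem coeff_main (n : ℕ) (hn : 1 ≤ n) :
    (PA n : PowerSeries ℚ) * II (3 * n) = X * PowerSeries.mk fun J : ℕ =>
        (2 * J * (n + J).choose n ^ 2 * (n + J + 1).choose n : ℚ) /
          ((J + n) * (n + 1) ^ 2 * (n + 2)) := by
  ext J
  rw [coeff_PA, coeff_identity]
  rcases J with _ | J
  · have : ∏ i ∈ range n, (((0 : ℕ) : ℚ) + i) = 0 :=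
      Finset.prod_eq_zero (Finset.mem_range.2 hn) (by simp)
    rw [this]; simp
  · rw [PowerSeries.coeff_succ_X_mul, PowerSeries.coeff_mk]
    have e1 : ∏ i ∈ range n, (((J + 1 : ℕ) : ℚ) + 1 + i) = n.factorial * (n + J + 1).choose n := by
      rw [prod_asc n (J + 1)]; rfl
    have e2 : ∏ i ∈ range n, (((J + 1 : ℕ) : ℚ) + i) = n.factorial * (n + J).choose n := by
      rw [← prod_asc]; push_cast; rfl
    have e3 : ∏ i ∈ range n, (((J + 1 : ℕ) : ℚ) - 1 + i) =
        J * (n.factorial * (n + J).choose n) / (J + n) := by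
      have h := prod_shift n J
      rw [prod_asc] at h
      have : ((J : ℚ) + n) ≠ 0 := by positivity
      rw [eq_div_iff this, ← h]
      congr 1
      refine Finset.prod_congr rfl fun i _ => ?_
      push_cast; ring
    rw [e1, e2, e3, Nat.factorial_succ (n + 1), Nat.factorial_succ n]
    have h1 : (n.factorial : ℚ) ≠ 0 := by positivity
    have h2 : ((J : ℚ) + n) ≠ 0 := by positivity
    push_cast
    field_simp
    ring

theorem gf_eq' (n : ℕ) (hn : 1 ≤ n) [Fintype (SYT n)] :
    (∑ T : SYT n, (Polynomial.X : Polynomial ℚ) ^ stat Est T)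
      = ∑ T : SYT n, (Polynomial.X : Polynomial ℚ) ^ (stat Easc T + 2) := by
  rw [gfA n hn]
  apply Polynomial.coe_injective
  have hB := modelB n hn
  rw [Z_rect Easc (X : PowerSeries ℚ) hn (0 : Fin 3)] at hB
  have m2 : ME Easc (X : PowerSeries ℚ) 2 0 = X := by simp [ME, Easc]
  rw [m2] at hB
  have hA := coeff_main n hn
  have h1 : (PA n : PowerSeries ℚ) = (PA n : PowerSeries ℚ) * (II (3 * n) * (1 - X) ^ (3 * n + 1)) := by
    rw [II_mul, mul_one]
  have h2 : ((∑ T : SYT n, (Polynomial.X : Polynomial ℚ) ^ (stat Easc T + 2) : Polynomial ℚ) :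
      PowerSeries ℚ) = X * ((∑ T : SYT n, (X : PowerSeries ℚ) ^ stat Easc T) * X) := by
    have : ∀ p : Polynomial ℚ, (p : PowerSeries ℚ) = Polynomial.coeToPowerSeries.ringHom p :=
      fun p => rfl
    rw [this]
    simp only [map_sum, map_pow, Polynomial.coeToPowerSeries.ringHom_apply, Polynomial.coe_X,
      Finset.sum_mul, Finset.mul_sum]
    refine Finset.sum_congr rfl fun T _ => ?_
    ring
  rw [h2, hB, h1, ← mul_assoc, hA]
  ring

end ps

end Sul
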